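import Mathlib

/-!
The counting argument for the lower bound.
-/

namespace Pool.Agent.Q312.SelfReg

open Finset

/-- a system of homogeneous equations with more unknowns than equations has a nontrivial
integer solution -/
lemma int_relation {m : ℕ} (v : Fin (m + 1) → Fin m → ℤ) :
    ∃ g : Fin (m + 1) → ℤ, (∀ l, ∑ i, g i * v i l = 0) ∧ ∃ i, g i ≠ 0 := by
  rcases Nat.eq_zero_or_pos m with rfl | hm
  · exact ⟨fun _ => 1, fun l => l.elim0, 0, one_ne_zero⟩
  · obtain ⟨g, h1, h2, -⟩ := Int.Matrix.exists_ne_zero_int_vec_norm_le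
      (Matrix.of fun (l : Fin m) (i : Fin (m + 1)) => v i l) (by simp) (by simpa using hm)
    refine ⟨g, fun l => ?_, Function.ne_iff.mp h1⟩
    have := congrFun h2 l
    simp only [Matrix.mulVec, dotProduct, Matrix.of_apply, Pi.zero_apply] at this
    rw [← this]
    exact Finset.sum_congr rfl fun i _ => mul_comm _ _

theorem cover_false {ι A : Type} [Fintype ι] [Fintype A] (n : ℕ) (hA : 2 * n + 3 ≤ Fintype.card A)
    (B : ι → Fin (n + 1) → ℕ) (w : ι → A → ℕ)
    (H1 : ∀ j, ∑ i, B i j = ∑ i, B i 0) (H2 : ∀ a, ∑ i, w i a ≠ 0)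
    (H3 : ∀ c : ι → ℕ, (∀ j, ∑ i, c i * B i j = ∑ i, c i * B i 0) →
      ∀ a b, ∑ i, c i * w i a = ∑ i, c i * w i b)
    (H4 : ∀ i, ∃ p q : A, ∀ a, w i a ≠ 0 → a = p ∨ a = q) : False := by
  classical
  -- the integer version of `H3`
  have H3' : ∀ c : ι → ℤ, (∀ j, ∑ i, c i * B i j = ∑ i, c i * B i 0) →
      ∀ a b, ∑ i, c i * w i a = ∑ i, c i * w i b := by
    intro c hc a b
    set K : ℤ := ∑ i, |c i| with hK
    have hK' : ∀ i, 0 ≤ K + c i := by
      intro i
      have h1 : |c i| ≤ K := Finset.single_le_sum (f := fun i => |c i|)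
        (fun i _ => abs_nonneg _) (Finset.mem_univ i)
      have h2 := neg_abs_le (c i)
      omega
    have h1 : ∀ X : ι → ℕ, ((∑ i, (K + c i).toNat * X i : ℕ) : ℤ) =
        K * ∑ i, (X i : ℤ) + ∑ i, c i * X i := by
      intro X
      push_cast
      rw [Finset.mul_sum, ← Finset.sum_add_distrib]
      apply Finset.sum_congr rfl
      intro i _
      rw [Int.toNat_of_nonneg (hK' i)]
      ring
    have h2 := H3 (fun i => (K + c i).toNat) (by
      intro j
      zify
      have e1 := h1 (fun i => B i j)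
      have e2 := h1 (fun i => B i 0)
      push_cast at e1 e2
      rw [e1, e2, hc j]
      have := H1 j
      zify at this
      rw [this]) a b
    have h3 := H3 (fun _ => 1) (by intro j; simpa using H1 j) a b
    simp only [one_mul] at h3
    have e1 := h1 (fun i => w i a)
    have e2 := h1 (fun i => w i b)
    have h4 : ((∑ i, (K + c i).toNat * w i a : ℕ) : ℤ) = ((∑ i, (K + c i).toNat * w i b : ℕ) : ℤ) :=
      by exact_mod_cast h2
    rw [e1, e2] at h4
    have h5 : ∑ i, (w i a : ℤ) = ∑ i, (w i b : ℤ) := by exact_mod_cast h3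
    rw [h5] at h4
    linarith
  -- a cover of minimal size
  have hex : ∃ k, ∃ t : Finset ι, (∀ a, ∃ i ∈ t, w i a ≠ 0) ∧ t.card = k := by
    refine ⟨_, Finset.univ, ?_, rfl⟩
    intro a
    by_contra hcon
    push Not at hcon
    exact H2 a (Finset.sum_eq_zero hcon)
  obtain ⟨t, ht, htk⟩ := Nat.find_spec hex
  have hmin : ∀ t' : Finset ι, t'.card < t.card → ¬ ∀ a, ∃ i ∈ t', w i a ≠ 0 := by
    intro t' ht' hcov
    rw [htk] at ht'
    exact Nat.find_min hex ht' ⟨t', hcov, rfl⟩
  have hpriv : ∀ i : ι, i ∈ t → ∃ a, w i a ≠ 0 ∧ ∀ j ∈ t, j ≠ i → w j a = 0 := by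
    intro i hi
    have h1 := hmin (t.erase i) (Finset.card_erase_lt_of_mem hi)
    push Not at h1
    obtain ⟨a, ha⟩ := h1
    have h2 : ∀ j ∈ t, j ≠ i → w j a = 0 := fun j hj hji => ha j (Finset.mem_erase.mpr ⟨hji, hj⟩)
    obtain ⟨j, hj, hja⟩ := ht a
    by_cases hji : j = i
    · subst hji
      exact ⟨a, hja, h2⟩
    · exact absurd (h2 j hj hji) hja
  choose p q hpq using H4
  have hcard : Fintype.card A ≤ t.card * 2 := by
    rw [← Finset.card_univ]
    refine le_trans (Finset.card_le_card (t := t.biUnion fun i => {p i, q i}) ?_)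
      (Finset.card_biUnion_le_card_mul _ _ 2 fun i _ => Finset.card_le_two)
    intro a _
    obtain ⟨i, hi, hia⟩ := ht a
    rw [Finset.mem_biUnion]
    refine ⟨i, hi, ?_⟩
    rcases hpq i a hia with h | h <;> simp [h]
  have ht2 : n + 2 ≤ t.card := by omega
  obtain ⟨e, he, het⟩ : ∃ e : Fin (n + 2) → ι, Function.Injective e ∧ ∀ m, e m ∈ t := by
    refine ⟨fun m => (t.equivFin.symm (Fin.castLE ht2 m)).1, ?_, fun m => (t.equivFin.symm _).2⟩
    intro m m' h
    have h1 := Subtype.ext h
    exact Fin.castLE_injective ht2 (t.equivFin.symm.injective h1)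
  obtain ⟨g, hg, m0, hm0⟩ := int_relation (m := n)
    (fun i l => (B (e i.castSucc) l.succ : ℤ) - B (e i.castSucc) 0)
  have hsum : ∀ X : ι → ℤ, ∑ i, (∑ m : Fin (n + 1), if e m.castSucc = i then g m else 0) * X i =
      ∑ m : Fin (n + 1), g m * X (e m.castSucc) := by
    intro X
    simp only [Finset.sum_mul]
    rw [Finset.sum_comm]
    apply Finset.sum_congr rfl
    intro m _
    rw [Finset.sum_eq_single (e m.castSucc)]
    · simp
    · intro i _ hi
      rw [if_neg (Ne.symm hi)]
      simp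
    · intro h; exact absurd (Finset.mem_univ _) h
  have hconst := H3' (fun i => ∑ m : Fin (n + 1), if e m.castSucc = i then g m else 0) (by
    intro j
    rw [hsum (fun i => (B i j : ℤ)), hsum (fun i => (B i 0 : ℤ))]
    rcases Fin.eq_zero_or_eq_succ j with rfl | ⟨l, rfl⟩
    · rfl
    · have := hg l
      simp only [mul_sub, Finset.sum_sub_distrib] at this
      linarith)
  obtain ⟨a1, ha1, ha1'⟩ := hpriv (e m0.castSucc) (het _)
  obtain ⟨a2, ha2, ha2'⟩ := hpriv (e (Fin.last (n + 1))) (het _)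
  have h1 := hconst a1 a2
  rw [hsum (fun i => (w i a1 : ℤ)), hsum (fun i => (w i a2 : ℤ))] at h1
  rw [Finset.sum_eq_single m0] at h1
  · have h2 : ∑ m : Fin (n + 1), g m * (w (e m.castSucc) a2 : ℤ) = 0 := by
      apply Finset.sum_eq_zero
      intro m _
      rw [ha2' (e m.castSucc) (het _) (fun h => (Fin.castSucc_lt_last m).ne (he h))]
      simp
    rw [h2] at h1
    rcases mul_eq_zero.mp h1 with h3 | h3
    · exact hm0 h3
    · exact ha1 (by exact_mod_cast h3)
  · intro m _ hm
    rw [ha1' (e m.castSucc) (het _) (fun h => hm (Fin.castSucc_injective _ (he h)))]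
    simp
  · intro h; exact absurd (Finset.mem_univ _) h

end Pool.Agent.Q312.SelfReg
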