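import Mathlib

/-!
Self-regulating pushdown automata and the families `FSPDA n` of the languages accepted by the
`n`-turn first-move self-regulating pushdown automata.
-/

namespace Pool.Agent.Q312.SelfReg

/-- Self-regulating pushdown automata over the input alphabet `A`. The rules are given by their
labels `r : Ψ`: the rule `r` is applicable in the state `src r` with the topmost pushdown symbol
`top r`, it reads `inp r`, replaces the topmost symbol by `push r` (topmost symbol first) and enters
the state `tgt r`. -/
structure SPDA (A : Type) where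
  /-- states -/
  Q : Type
  /-- pushdown symbols -/
  Γ : Type
  /-- rule labels -/
  Ψ : Type
  finQ : Finite Q
  finΓ : Finite Γ
  finΨ : Finite Ψ
  /-- topmost pushdown symbol needed by a rule -/
  top : Ψ → Γ
  /-- source state of a rule -/
  src : Ψ → Q
  /-- the word read by a rule -/
  inp : Ψ → List A
  /-- the word written by a rule, topmost symbol first -/
  push : Ψ → List Γ
  /-- target state of a rule -/
  tgt : Ψ → Q
  /-- initial state -/
  q0 : Q
  /-- turn state -/
  qt : Q
  /-- initial pushdown symbol -/
  Z0 : Γ
  /-- final states -/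
  F : Set Q
  /-- the relation on the rule labels -/
  R : Ψ → Ψ → Prop

variable {A : Type}

/-- `M.Run (β, q, v) μ (β', q', v')`: from the pushdown contents `β` (topmost symbol first), the
state `q` and the unread input `v`, the sequence of moves with the labels `μ` leads to `β'`, `q'`,
`v'`. -/
inductive SPDA.Run (M : SPDA A) : List M.Γ × M.Q × List A → List M.Ψ →
    List M.Γ × M.Q × List A → Prop
  | nil (c : List M.Γ × M.Q × List A) : Run M c [] c
  | cons (r : M.Ψ) (β : List M.Γ) (v : List A) (μ : List M.Ψ) (c : List M.Γ × M.Q × List A) :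
      Run M (M.push r ++ β, M.tgt r, v) μ c → Run M (M.top r :: β, M.src r, M.inp r ++ v) (r :: μ) c

/-- The block `b` ends with a rule which enters the turn state, and no other rule of it does. -/
def SPDA.TurnAtEnd (M : SPDA A) (b : List M.Ψ) : Prop :=
  ∃ (b' : List M.Ψ) (r : M.Ψ), b = b' ++ [r] ∧ M.tgt r = M.qt ∧ ∀ r' ∈ b', M.tgt r' ≠ M.qt

/-- The first labels of the blocks `b` and `b'` are related by `R`. -/
def SPDA.HeadRel (M : SPDA A) (b b' : List M.Ψ) : Prop :=
  ∃ r r' : M.Ψ, b.head? = some r ∧ b'.head? = some r' ∧ M.R r r'

/-- `μ` is the concatenation of `n + 1` blocks of the same length `k ≥ 1`, the last label of the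
first block is the earliest label in `μ` whose rule enters the turn state, and the first labels of
consecutive blocks are related by `R`. -/
def SPDA.Shape (M : SPDA A) (n : ℕ) (μ : List M.Ψ) : Prop :=
  ∃ (k : ℕ) (b0 : List M.Ψ) (bs : List (List M.Ψ)), 1 ≤ k ∧ bs.length = n ∧
    μ = (b0 :: bs).flatten ∧ (∀ b ∈ b0 :: bs, b.length = k) ∧ M.TurnAtEnd b0 ∧
    (b0 :: bs).IsChain M.HeadRel

/-- The language of the `n`-turn first-move self-regulating pushdown automaton `M`. -/
def SPDA.language (M : SPDA A) (n : ℕ) : Set (List A) :=
  {w | ∃ f ∈ M.F, ∃ μ, M.Run ([M.Z0], M.q0, w) μ ([], f, []) ∧ M.Shape n μ}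

/-- The family of the languages accepted by the `n`-turn first-move self-regulating pushdown
automata. -/
def FSPDA (n : ℕ) (L : Set (List A)) : Prop := ∃ M : SPDA A, M.language n = L

end Pool.Agent.Q312.SelfReg
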