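import Pool.Agent.Q312.SelfReg.Defs

/-!
The inclusion `FSPDA n ⊆ FSPDA (n + 1)`: an idle block is added at the beginning.
-/

namespace Pool.Agent.Q312.SelfReg

variable {A : Type}

/-- A word ends at its first label entering the turn state: uniqueness. -/
lemma TurnAtEnd.unique {M : SPDA A} {l1 t1 l2 t2 : List M.Ψ} (h : l1 ++ t1 = l2 ++ t2)
    (h1 : M.TurnAtEnd l1) (h2 : M.TurnAtEnd l2) : l1 = l2 ∧ t1 = t2 := by
  obtain ⟨c1, x1, rfl, hx1, hc1⟩ := h1
  obtain ⟨c2, x2, rfl, hx2, hc2⟩ := h2
  have key : ∀ (c1 c2 : List M.Ψ) (t1 t2 : List M.Ψ), (∀ r' ∈ c1, M.tgt r' ≠ M.qt) →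
      (∀ r' ∈ c2, M.tgt r' ≠ M.qt) → c1 ++ [x1] ++ t1 = c2 ++ [x2] ++ t2 →
      c1 ++ [x1] = c2 ++ [x2] ∧ t1 = t2 := by
    intro c1
    induction c1 with
    | nil =>
      intro c2 t1 t2 _ h2 h
      rcases c2 with _ | ⟨y, c2⟩
      · simp only [List.nil_append, List.cons_append, List.cons.injEq] at h
        obtain ⟨rfl, rfl⟩ := h
        exact ⟨rfl, rfl⟩
      · simp only [List.nil_append, List.cons_append, List.cons.injEq] at h
        exact absurd (h.1 ▸ hx1) (h2 y (by simp))
    | cons y c1 ih =>
      intro c2 t1 t2 h1 h2 h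
      rcases c2 with _ | ⟨z, c2⟩
      · simp only [List.nil_append, List.cons_append, List.cons.injEq] at h
        exact absurd (h.1 ▸ hx2) (h1 y (by simp))
      · simp only [List.cons_append, List.cons.injEq] at h
        obtain ⟨rfl, h⟩ := h
        obtain ⟨h3, h4⟩ := ih c2 t1 t2 (fun r hr => h1 r (by simp [hr]))
          (fun r hr => h2 r (by simp [hr])) h
        exact ⟨by rw [List.cons_append, List.cons_append, h3], h4⟩
  exact key c1 c2 t1 t2 hc1 hc2 h

/-- phases: before the first visit of the turn state, just after it, later -/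
inductive Ph
  | pre
  | just
  | post

instance : Finite Ph := Finite.of_injective (fun p : Ph => (match p with
    | .pre => 0 | .just => 1 | .post => 2 : Fin 3)) (by
    intro s t h
    cases s <;> cases t <;> first | rfl | (simp at h))

/-- states of the new automaton -/
inductive St (Q : Type)
  | start
  | idle
  | turn
  | st (q : Q) (p : Ph)

instance {Q : Type} [Finite Q] : Finite (St Q) :=
  Finite.of_injective (fun s : St Q => (match s with
    | .start => none | .idle => some none | .turn => some (some none)
    | .st q p => some (some (some (q, p))) : Option (Option (Option (Q × Ph))))) (by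
    intro s t h
    cases s <;> cases t <;> simp at h <;> first | rfl | (obtain ⟨rfl, rfl⟩ := h; rfl))

/-- labels of the new automaton -/
inductive Lb (M : SPDA A)
  | i0
  | i0t
  | id
  | idt
  | a (r : M.Ψ) (h : M.src r = M.q0)
  | m (p : Ph) (r : M.Ψ)

instance (M : SPDA A) : Finite (Lb M) := by
  have := M.finΨ
  exact Finite.of_injective (fun s : Lb M => (match s with
    | .i0 => .inl 0 | .i0t => .inl 1 | .id => .inl 2 | .idt => .inl 3
    | .a r _ => .inr (.inl r) | .m p r => .inr (.inr (p, r)) : Fin 4 ⊕ (M.Ψ ⊕ (Ph × M.Ψ)))) (by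
    intro s t h
    cases s <;> cases t <;> simp at h <;>
      first | rfl | (obtain ⟨rfl, rfl⟩ := h; rfl))

open Classical in
/-- the next phase -/
noncomputable def np (M : SPDA A) : Ph → M.Ψ → Ph
  | .pre, r => if M.tgt r = M.qt then .just else .pre
  | .just, _ => .post
  | .post, _ => .post

/-- the new automaton -/
@[reducible] noncomputable def nx (M : SPDA A) (n : ℕ) : SPDA A where
  Q := St M.Q
  Γ := M.Γ
  Ψ := Lb M
  finQ := by have := M.finQ; infer_instance
  finΓ := M.finΓ
  finΨ := inferInstance
  top := fun x => match x with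
    | .i0 => M.Z0 | .i0t => M.Z0 | .id => M.Z0 | .idt => M.Z0
    | .a r _ => M.top r | .m _ r => M.top r
  src := fun x => match x with
    | .i0 => .start | .i0t => .start | .id => .idle | .idt => .idle
    | .a _ _ => .turn | .m p r => .st (M.src r) p
  inp := fun x => match x with
    | .i0 => [] | .i0t => [] | .id => [] | .idt => []
    | .a r _ => M.inp r | .m _ r => M.inp r
  push := fun x => match x with
    | .i0 => [M.Z0] | .i0t => [M.Z0] | .id => [M.Z0] | .idt => [M.Z0]
    | .a r _ => M.push r | .m _ r => M.push r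
  tgt := fun x => match x with
    | .i0 => .idle | .i0t => .turn | .id => .idle | .idt => .turn
    | .a r _ => .st (M.tgt r) (np M .pre r) | .m p r => .st (M.tgt r) (np M p r)
  q0 := .start
  qt := .turn
  Z0 := M.Z0
  F := {s | ∃ f ∈ M.F, ∃ p, s = .st f p ∧ (n = 0 → p = .just)}
  R := fun x y => match x, y with
    | .i0, .a _ _ => True
    | .i0t, .a _ _ => True
    | .a r _, .m .just s => M.R r s
    | .m .just r, .m .post s => M.R r s
    | .m .post r, .m .post s => M.R r s
    | _, _ => False

/-- labelling of a sequence of moves -/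
noncomputable def lab (M : SPDA A) : Ph → List M.Ψ → List (Lb M)
  | _, [] => []
  | p, r :: μ => .m p r :: lab M (np M p r) μ

/-- the phase at the end -/
noncomputable def ep (M : SPDA A) : Ph → List M.Ψ → Ph
  | p, [] => p
  | p, r :: μ => ep M (np M p r) μ

lemma ep_append (M : SPDA A) (p : Ph) (x y : List M.Ψ) :
    ep M p (x ++ y) = ep M (ep M p x) y := by
  induction x generalizing p with
  | nil => rfl
  | cons r x ih => exact ih _

lemma lab_append (M : SPDA A) (p : Ph) (x y : List M.Ψ) :
    lab M p (x ++ y) = lab M p x ++ lab M (ep M p x) y := by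
  induction x generalizing p with
  | nil => rfl
  | cons r x ih =>
    simp only [List.cons_append, lab, ep]
    rw [ih]

lemma length_lab (M : SPDA A) (p : Ph) (x : List M.Ψ) : (lab M p x).length = x.length := by
  induction x generalizing p with
  | nil => rfl
  | cons r x ih => simp [lab, ih]

lemma ep_post (M : SPDA A) (x : List M.Ψ) : ep M .post x = .post := by
  induction x with
  | nil => rfl
  | cons r x ih => exact ih

lemma ep_just_cons (M : SPDA A) (r : M.Ψ) (x : List M.Ψ) : ep M .just (r :: x) = .post :=
  ep_post M x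

lemma ep_pre (M : SPDA A) (x : List M.Ψ) :
    (ep M .pre x = .just ↔ M.TurnAtEnd x) ∧ (ep M .pre x = .pre ↔ ∀ r ∈ x, M.tgt r ≠ M.qt) := by
  induction x with
  | nil =>
    refine ⟨⟨fun h => by simp [ep] at h, ?_⟩, by simp [ep]⟩
    rintro ⟨b, r, h, -⟩
    simp at h
  | cons r x ih =>
    by_cases hr : M.tgt r = M.qt
    · have e : ep M .pre (r :: x) = ep M .just x := by simp [ep, np, hr]
      rw [e]
      rcases x with _ | ⟨s, x⟩
      · refine ⟨⟨fun _ => ⟨[], r, rfl, hr, by simp⟩, fun _ => rfl⟩, ?_⟩
        simp [ep, hr]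
      · rw [ep_just_cons]
        refine ⟨⟨fun h => by simp at h, ?_⟩, by simp [hr]⟩
        rintro ⟨b, t, h, h1, h2⟩
        rcases b with _ | ⟨y, b⟩
        · simp at h
        · simp only [List.cons_append, List.cons.injEq] at h
          exact absurd (h.1 ▸ hr) (h2 y (by simp))
    · have e : ep M .pre (r :: x) = ep M .pre x := by simp [ep, np, hr]
      rw [e]
      constructor
      · rw [ih.1]
        constructor
        · rintro ⟨b, t, rfl, h1, h2⟩
          refine ⟨r :: b, t, rfl, h1, ?_⟩
          intro r' hr'
          rcases List.mem_cons.mp hr' with rfl | h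
          · exact hr
          · exact h2 r' h
        · rintro ⟨b, t, h, h1, h2⟩
          rcases b with _ | ⟨y, b⟩
          · simp only [List.nil_append, List.cons.injEq] at h
            exact absurd (h.1 ▸ h1) hr
          · simp only [List.cons_append, List.cons.injEq] at h
            exact ⟨b, t, h.2, h1, fun r' hr' => h2 r' (by simp [hr'])⟩
      · rw [ih.2]
        simp [hr]

lemma run_cons_inv (M : SPDA A) (c c' : List M.Γ × M.Q × List A) (r : M.Ψ) (μ : List M.Ψ)
    (h : M.Run c (r :: μ) c') : ∃ β v, c = (M.top r :: β, M.src r, M.inp r ++ v) ∧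
      M.Run (M.push r ++ β, M.tgt r, v) μ c' := by
  cases h with
  | cons _ β v _ _ h => exact ⟨β, v, rfl, h⟩

lemma run_lab (M : SPDA A) (n : ℕ) (c c' : List M.Γ × M.Q × List A) (μ : List M.Ψ)
    (h : M.Run c μ c') (p : Ph) :
    (nx M n).Run (c.1, .st c.2.1 p, c.2.2) (lab M p μ) (c'.1, .st c'.2.1 (ep M p μ), c'.2.2) := by
  induction h generalizing p with
  | nil c => exact .nil _
  | cons r β v μ c _ ih => exact SPDA.Run.cons (M := nx M n) (.m p r) β v _ _ (ih _)

lemma run_of_lab (M : SPDA A) (n : ℕ) (c c' : List (nx M n).Γ × (nx M n).Q × List A) (μ : List (nx M n).Ψ)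
    (h : (nx M n).Run c μ c') (q : M.Q) (p : Ph) (hc : c.2.1 = .st q p) :
    ∃ μ1 q', c'.2.1 = .st q' (ep M p μ1) ∧ μ = lab M p μ1 ∧
      M.Run (c.1, q, c.2.2) μ1 (c'.1, q', c'.2.2) := by
  induction h generalizing q p with
  | nil c => exact ⟨[], q, hc, rfl, .nil _⟩
  | cons r β v μ c _ ih =>
    rcases r with _ | _ | _ | _ | ⟨r, hr⟩ | ⟨p', r⟩
    · exact absurd hc (by simp [nx])
    · exact absurd hc (by simp [nx])
    · exact absurd hc (by simp [nx])
    · exact absurd hc (by simp [nx])
    · exact absurd hc (by simp [nx])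
    · have hc' : (St.st (M.src r) p' : St M.Q) = .st q p := hc
      injection hc' with h1 h2
      subst h1 h2
      obtain ⟨μ1, q', h3, h4, h5⟩ := ih (M.tgt r) (np M p' r) rfl
      exact ⟨r :: μ1, q', h3, by rw [h4]; rfl, .cons r β v μ1 _ h5⟩

/-- the idle block -/
def idl (M : SPDA A) : ℕ → List (Lb M)
  | 0 => []
  | 1 => [.i0t]
  | k + 2 => .i0 :: (List.replicate k .id ++ [.idt])

lemma length_idl (M : SPDA A) (k : ℕ) : (idl M k).length = k := by
  rcases k with _ | _ | k
  · rfl
  · rfl
  · simp [idl]

lemma turn_idl (M : SPDA A) (n k : ℕ) (hk : 1 ≤ k) : (nx M n).TurnAtEnd (idl M k) := by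
  rcases k with _ | _ | k
  · omega
  · exact ⟨[], .i0t, rfl, rfl, by simp⟩
  · refine ⟨.i0 :: List.replicate k .id, .idt, rfl, rfl, ?_⟩
    intro r hr
    rcases List.mem_cons.mp hr with rfl | h
    · simp [nx]
    · rw [List.eq_of_mem_replicate h]
      simp [nx]

lemma head_idl (M : SPDA A) (k : ℕ) (hk : 1 ≤ k) :
    (idl M k).head? = some .i0 ∨ (idl M k).head? = some .i0t := by
  rcases k with _ | _ | k
  · omega
  · exact Or.inr rfl
  · exact Or.inl rfl

/-- the first move of `M` -/
lemma run_turn (M : SPDA A) (n : ℕ) (c c' : List (nx M n).Γ × (nx M n).Q × List A) (μ : List (nx M n).Ψ)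
    (h : (nx M n).Run c μ c') (hc : c.2.1 = .turn) (f : M.Q) (p : Ph) (hc' : c'.2.1 = .st f p) :
    ∃ (r : M.Ψ) (hr : M.src r = M.q0) (μ1 : List M.Ψ), p = ep M .pre (r :: μ1) ∧
      μ = .a r hr :: lab M (np M .pre r) μ1 ∧
      M.Run (c.1, M.q0, c.2.2) (r :: μ1) (c'.1, f, c'.2.2) := by
  cases h with
  | nil c => rw [hc] at hc'; simp at hc'
  | cons r β v μ c h =>
    rcases r with _ | _ | _ | _ | ⟨r, hr⟩ | ⟨p', r⟩
    · exact absurd hc (by simp [nx])
    · exact absurd hc (by simp [nx])
    · exact absurd hc (by simp [nx])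
    · exact absurd hc (by simp [nx])
    · obtain ⟨μ1, q', h3, h4, h5⟩ := run_of_lab M n _ _ _ h (M.tgt r) (np M .pre r) rfl
      have h6 : (St.st f p : St M.Q) = .st q' (ep M (np M .pre r) μ1) := hc'.symm.trans h3
      injection h6 with h7 h8
      subst h7 h8
      refine ⟨r, hr, μ1, rfl, by rw [h4], ?_⟩
      rw [← hr]
      exact .cons r β v μ1 _ h5
    · exact absurd hc (by simp [nx])

/-- the idle moves -/
lemma run_idle (M : SPDA A) (n : ℕ) (c c' : List (nx M n).Γ × (nx M n).Q × List A) (μ : List (nx M n).Ψ)
    (h : (nx M n).Run c μ c') (hc : c.2.1 = .idle) (f : M.Q) (p : Ph) (hc' : c'.2.1 = .st f p) :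
    ∃ (k : ℕ) (r : M.Ψ) (hr : M.src r = M.q0) (μ1 : List M.Ψ), p = ep M .pre (r :: μ1) ∧
      μ = List.replicate k .id ++ .idt :: .a r hr :: lab M (np M .pre r) μ1 ∧
      M.Run (c.1, M.q0, c.2.2) (r :: μ1) (c'.1, f, c'.2.2) := by
  induction h with
  | nil c => rw [hc] at hc'; simp at hc'
  | cons r β v μ c h ih =>
    rcases r with _ | _ | _ | _ | ⟨r, hr⟩ | ⟨p', r⟩
    · exact absurd hc (by simp [nx])
    · exact absurd hc (by simp [nx])
    · obtain ⟨k, r, hr, μ1, h1, h2, h3⟩ := ih rfl hc'
      exact ⟨k + 1, r, hr, μ1, h1, by rw [h2]; rfl, h3⟩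
    · obtain ⟨r, hr, μ1, h1, h2, h3⟩ := run_turn M n _ _ _ h rfl f p hc'
      exact ⟨0, r, hr, μ1, h1, by rw [h2]; rfl, h3⟩
    · exact absurd hc (by simp [nx])
    · exact absurd hc (by simp [nx])

lemma run_start (M : SPDA A) (n : ℕ) (c c' : List (nx M n).Γ × (nx M n).Q × List A) (μ : List (nx M n).Ψ)
    (h : (nx M n).Run c μ c') (hc : c.2.1 = .start) (f : M.Q) (p : Ph) (hc' : c'.2.1 = .st f p) :
    ∃ (k : ℕ) (r : M.Ψ) (hr : M.src r = M.q0) (μ1 : List M.Ψ), 1 ≤ k ∧ p = ep M .pre (r :: μ1) ∧
      μ = idl M k ++ .a r hr :: lab M (np M .pre r) μ1 ∧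
      M.Run (c.1, M.q0, c.2.2) (r :: μ1) (c'.1, f, c'.2.2) := by
  cases h with
  | nil c => rw [hc] at hc'; simp at hc'
  | cons r β v μ c h =>
    rcases r with _ | _ | _ | _ | ⟨r, hr⟩ | ⟨p', r⟩
    · obtain ⟨k, r, hr, μ1, h1, h2, h3⟩ := run_idle M n _ _ _ h rfl f p hc'
      refine ⟨k + 2, r, hr, μ1, by omega, h1, ?_, h3⟩
      rw [h2]
      simp [idl]
    · obtain ⟨r, hr, μ1, h1, h2, h3⟩ := run_turn M n _ _ _ h rfl f p hc'
      exact ⟨1, r, hr, μ1, le_rfl, h1, by rw [h2]; rfl, h3⟩
    · exact absurd hc (by simp [nx])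
    · exact absurd hc (by simp [nx])
    · exact absurd hc (by simp [nx])
    · exact absurd hc (by simp [nx])

lemma run_idl (M : SPDA A) (n k : ℕ) (hk : 1 ≤ k) (v : List A) (μ : List (Lb M))
    (c : List M.Γ × St M.Q × List A) (h : (nx M n).Run ([M.Z0], .turn, v) μ c) :
    (nx M n).Run ([M.Z0], .start, v) (idl M k ++ μ) c := by
  have h1 : ∀ j, (nx M n).Run ([M.Z0], .idle, v) (List.replicate j .id ++ .idt :: μ) c := by
    intro j
    induction j with
    | zero => exact SPDA.Run.cons (M := nx M n) .idt [] v μ c h
    | succ j ih => exact SPDA.Run.cons (M := nx M n) .id [] v _ c ih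
  rcases k with _ | _ | k
  · omega
  · exact SPDA.Run.cons (M := nx M n) .i0t [] v μ c h
  · have : idl M (k + 2) ++ μ = .i0 :: (List.replicate k .id ++ .idt :: μ) := by simp [idl]
    rw [this]
    exact SPDA.Run.cons (M := nx M n) .i0 [] v _ c (h1 k)

/-- block-wise labelling -/
noncomputable def labB (M : SPDA A) : Ph → List (List M.Ψ) → List (List (Lb M))
  | _, [] => []
  | p, b :: bs => lab M p b :: labB M (ep M p b) bs

lemma flatten_labB (M : SPDA A) (p : Ph) (bs : List (List M.Ψ)) :
    (labB M p bs).flatten = lab M p bs.flatten := by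
  induction bs generalizing p with
  | nil => rfl
  | cons b bs ih => simp only [labB, List.flatten_cons, ih, lab_append]

lemma length_labB (M : SPDA A) (p : Ph) (bs : List (List M.Ψ)) :
    (labB M p bs).length = bs.length := by
  induction bs generalizing p with
  | nil => rfl
  | cons b bs ih => simp [labB, ih]

lemma mem_labB (M : SPDA A) (p : Ph) (bs : List (List M.Ψ)) (k : ℕ)
    (h : ∀ b ∈ bs, b.length = k) : ∀ b ∈ labB M p bs, b.length = k := by
  induction bs generalizing p with
  | nil => intro b hb; simp [labB] at hb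
  | cons b bs ih =>
    intro c hc
    rcases List.mem_cons.mp hc with rfl | hc
    · rw [length_lab]; exact h b (by simp)
    · exact ih _ (fun b hb => h b (by simp [hb])) c hc

lemma head_lab (M : SPDA A) (p : Ph) (b : List M.Ψ) (r : M.Ψ) (h : b.head? = some r) :
    (lab M p b).head? = some (.m p r) := by
  rcases b with _ | ⟨s, b⟩
  · simp at h
  · simp only [List.head?_cons, Option.some.injEq] at h
    subst h
    rfl

lemma chain_post (M : SPDA A) (n : ℕ) (bs : List (List M.Ψ)) (h : bs.IsChain M.HeadRel) :
    (labB M .post bs).IsChain (nx M n).HeadRel := by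
  induction bs with
  | nil => simp [labB]
  | cons b bs ih =>
    rcases bs with _ | ⟨b', bs⟩
    · simp [labB]
    · rw [List.isChain_cons_cons] at h
      obtain ⟨⟨r, r', h1, h2, h3⟩, h4⟩ := h
      have h5 := ih h4
      simp only [labB, ep_post] at h5 ⊢
      rw [List.isChain_cons_cons]
      exact ⟨⟨.m .post r, .m .post r', head_lab M _ _ _ h1, head_lab M _ _ _ h2, h3⟩, h5⟩

lemma chain_just (M : SPDA A) (n : ℕ) (bs : List (List M.Ψ)) (h : bs.IsChain M.HeadRel)
    (hne : ∀ b ∈ bs, b ≠ []) :
    (labB M .just bs).IsChain (nx M n).HeadRel := by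
  rcases bs with _ | ⟨b, bs⟩
  · simp [labB]
  · rcases bs with _ | ⟨b', bs⟩
    · simp [labB]
    · rw [List.isChain_cons_cons] at h
      obtain ⟨⟨r, r', h1, h2, h3⟩, h4⟩ := h
      have h5 := chain_post M n _ h4
      have h6 : ep M .just b = .post := by
        rcases b with _ | ⟨x, b⟩
        · exact absurd rfl (hne [] (by simp))
        · exact ep_just_cons M x b
      simp only [labB, ep_post, h6] at h5 ⊢
      rw [List.isChain_cons_cons]
      exact ⟨⟨.m .just r, .m .post r', head_lab M _ _ _ h1, head_lab M _ _ _ h2, h3⟩, h5⟩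

/-- removing the labelling -/
def str (M : SPDA A) (r0 : M.Ψ) : Lb M → M.Ψ
  | .i0 => r0
  | .i0t => r0
  | .id => r0
  | .idt => r0
  | .a r _ => r
  | .m _ r => r

lemma str_lab (M : SPDA A) (r0 : M.Ψ) (p : Ph) (x : List M.Ψ) :
    (lab M p x).map (str M r0) = x := by
  induction x generalizing p with
  | nil => rfl
  | cons r x ih => simp [lab, ih, str]

lemma mem_lab (M : SPDA A) (p : Ph) (x : List M.Ψ) : ∀ y ∈ lab M p x, ∃ p' r, y = .m p' r := by
  induction x generalizing p with
  | nil => intro y hy; simp [lab] at hy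
  | cons r x ih =>
    intro y hy
    rcases List.mem_cons.mp hy with rfl | hy
    · exact ⟨p, r, rfl⟩
    · exact ih _ y hy

theorem language_nx (M : SPDA A) (n : ℕ) : (nx M n).language (n + 1) = M.language n := by
  ext w
  constructor
  · rintro ⟨s, ⟨f, hf, p, rfl, hp⟩, μ, hrun, k, b0, bs, hk, hlen, hμ, hbk, hturn, hchain⟩
    obtain ⟨k', r0, hr0, μ1, hk', hpe, hμ', hrun'⟩ := run_start M n _ _ _ hrun rfl f p rfl
    -- the first block is the idle block
    have h1 : b0 ++ bs.flatten = idl M k' ++ .a r0 hr0 :: lab M (np M .pre r0) μ1 := by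
      rw [← hμ', hμ]; rfl
    obtain ⟨h2, h3⟩ := TurnAtEnd.unique h1 hturn (turn_idl M n k' hk')
    -- the blocks of `M`
    have h4 : (bs.map (List.map (str M r0))).flatten = r0 :: μ1 := by
      rw [← List.map_flatten, h3, List.map_cons, str_lab]
      rfl
    rcases bs with _ | ⟨b1, bs⟩
    · simp at hlen
    have hlen' : bs.length = n := by simpa using hlen
    have hb1 : b1.length = k := hbk b1 (by simp)
    have hM : ∀ b ∈ b1 :: bs, ∀ x ∈ b, (∃ r hr, x = .a r hr) ∨ ∃ p r, x = .m p r := by
      intro b hb x hx
      have : x ∈ (b1 :: bs).flatten := List.mem_flatten.mpr ⟨b, hb, hx⟩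
      rw [h3] at this
      rcases List.mem_cons.mp this with rfl | h
      · exact Or.inl ⟨r0, hr0, rfl⟩
      · exact Or.inr (mem_lab M _ _ x h)
    refine ⟨f, hf, r0 :: μ1, hrun', k, b1.map (str M r0), bs.map (List.map (str M r0)), hk,
      by simpa using hlen', h4.symm, ?_, ?_, ?_⟩
    · intro b hb
      have hb' : b ∈ (b1 :: bs).map (List.map (str M r0)) := hb
      obtain ⟨b', hb'', rfl⟩ := List.mem_map.mp hb'
      rw [List.length_map]
      exact hbk b' (List.mem_cons_of_mem _ hb'')
    · -- the first block ends with the turn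
      rw [← (ep_pre M _).1]
      rcases bs with _ | ⟨b2, bs⟩
      · have hn : n = 0 := by simpa using hlen'.symm
        have h5 : b1.map (str M r0) = r0 :: μ1 := by
          rw [← h4]; simp
        rw [h5, ← hpe]
        exact hp hn
      · -- the label of the first move of the second block
        rw [List.isChain_cons_cons, List.isChain_cons_cons] at hchain
        obtain ⟨x, y, h5, h6, h7⟩ := hchain.2.1
        rcases b1 with _ | ⟨x', b1⟩
        · simp at h5
        simp only [List.head?_cons, Option.some.injEq] at h5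
        subst h5
        rcases b2 with _ | ⟨y', b2⟩
        · simp at h6
        simp only [List.head?_cons, Option.some.injEq] at h6
        subst h6
        simp only [List.flatten_cons, List.cons_append, List.cons.injEq] at h3
        obtain ⟨rfl, h3⟩ := h3
        -- split `μ1`
        have h8 : μ1 = b1.map (str M r0) ++ str M r0 y' :: (b2 ++ bs.flatten).map (str M r0) := by
          have := congrArg (List.map (str M r0)) h3
          rw [str_lab] at this
          rw [← this]
          simp
        have h9 := h3
        rw [h8, lab_append] at h9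
        have h10 := (List.append_inj h9 (by simp [length_lab])).2
        simp only [lab, List.cons.injEq] at h10
        have h11 : ∃ s, y' = .m .just s := by
          rcases y' with _ | _ | _ | _ | ⟨r, hr⟩ | ⟨p', r⟩
          · exact absurd h7 id
          · exact absurd h7 id
          · exact absurd h7 id
          · exact absurd h7 id
          · exact absurd h7 id
          · rcases p' with _ | _ | _
            · exact absurd h7 id
            · exact ⟨r, rfl⟩
            · exact absurd h7 id
        obtain ⟨s, rfl⟩ := h11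
        have h12 := h10.1
        injection h12 with h13 _
        change ep M .pre (r0 :: b1.map (str M r0)) = .just
        exact h13.symm
    · -- the relations
      have hch := (List.isChain_cons_cons.mp hchain).2
      have key : ∀ bs : List (List (Lb M)), (∀ b ∈ bs, ∀ x ∈ b,
          (∃ r hr, x = .a r hr) ∨ ∃ p r, x = .m p r) → bs.IsChain (nx M n).HeadRel →
          (bs.map (List.map (str M r0))).IsChain M.HeadRel := by
        intro bs
        induction bs with
        | nil => intro _ _; simp
        | cons b bs ih =>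
          intro h5 h6
          rcases bs with _ | ⟨b', bs⟩
          · simp
          · rw [List.isChain_cons_cons] at h6
            obtain ⟨⟨x, y, h7, h8, h9⟩, h10⟩ := h6
            have h11 := ih (fun b hb => h5 b (List.mem_cons_of_mem _ hb)) h10
            simp only [List.map_cons] at h11 ⊢
            rw [List.isChain_cons_cons]
            refine ⟨⟨str M r0 x, str M r0 y, ?_, ?_, ?_⟩, h11⟩
            · rw [List.head?_map, h7]; rfl
            · rw [List.head?_map, h8]; rfl
            · have hx : x ∈ b := List.mem_of_mem_head? h7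
              rcases h5 b (by simp) x hx with ⟨r, hr, rfl⟩ | ⟨p, r, rfl⟩
              · rcases y with _ | _ | _ | _ | ⟨s, hs⟩ | ⟨p', s⟩
                · exact absurd h9 id
                · exact absurd h9 id
                · exact absurd h9 id
                · exact absurd h9 id
                · exact absurd h9 id
                · rcases p' with _ | _ | _
                  · exact absurd h9 id
                  · exact h9
                  · exact absurd h9 id
              · rcases p with _ | _ | _
                · rcases y with _ | _ | _ | _ | ⟨s, hs⟩ | ⟨p', s⟩ <;> exact absurd h9 id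
                · rcases y with _ | _ | _ | _ | ⟨s, hs⟩ | ⟨p', s⟩
                  · exact absurd h9 id
                  · exact absurd h9 id
                  · exact absurd h9 id
                  · exact absurd h9 id
                  · exact absurd h9 id
                  · rcases p' with _ | _ | _
                    · exact absurd h9 id
                    · exact absurd h9 id
                    · exact h9
                · rcases y with _ | _ | _ | _ | ⟨s, hs⟩ | ⟨p', s⟩
                  · exact absurd h9 id
                  · exact absurd h9 id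
                  · exact absurd h9 id
                  · exact absurd h9 id
                  · exact absurd h9 id
                  · rcases p' with _ | _ | _
                    · exact absurd h9 id
                    · exact absurd h9 id
                    · exact h9
      exact key (b1 :: bs) hM hch
  · rintro ⟨f, hf, μ, hrun, k, b0, bs, hk, hlen, hμ, hbk, hturn, hchain⟩
    -- the first label
    have hb0 : b0.length = k := hbk b0 (by simp)
    rcases b0 with _ | ⟨r0, b0⟩
    · simp at hb0; omega
    have hμ' : μ = r0 :: (b0 ++ bs.flatten) := by rw [hμ]; rfl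
    rw [hμ'] at hrun
    obtain ⟨β, v, hc, h⟩ := run_cons_inv M _ _ _ _ hrun
    simp only [Prod.mk.injEq] at hc
    obtain ⟨hβ, hsrc, hw⟩ := hc
    -- run of the new automaton
    have h1 := run_lab M n _ _ _ h (np M .pre r0)
    have h2 : (nx M n).Run ([M.Z0], .turn, w)
        (.a r0 hsrc.symm :: lab M (np M .pre r0) (b0 ++ bs.flatten))
        ([], .st f (ep M (np M .pre r0) (b0 ++ bs.flatten)), []) := by
      rw [hβ, hw]
      exact SPDA.Run.cons (M := nx M n) (.a r0 hsrc.symm) β v _ _ h1
    have h3 := run_idl M n k hk w _ _ h2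
    have hturn' := (ep_pre M _).1.mpr hturn
    have hne : ∀ b ∈ bs, b ≠ [] := by
      intro b hb e
      have := hbk b (List.mem_cons_of_mem _ hb)
      rw [e] at this
      simp at this
      omega
    refine ⟨.st f (ep M (np M .pre r0) (b0 ++ bs.flatten)), ⟨f, hf, _, rfl, ?_⟩, _, h3, k,
      idl M k, (.a r0 hsrc.symm :: lab M (np M .pre r0) b0) :: labB M .just bs, hk, ?_, ?_, ?_,
      turn_idl M n k hk, ?_⟩
    · intro hn
      have : bs = [] := by
        rw [hn] at hlen
        exact List.length_eq_zero_iff.mp hlen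
      subst this
      simpa [ep] using hturn'
    · simp [length_labB, hlen]
    · have : ep M (np M .pre r0) b0 = .just := hturn'
      simp only [List.flatten_cons, flatten_labB, lab_append, this, List.cons_append]
    · intro b hb
      rcases List.mem_cons.mp hb with rfl | hb
      · exact length_idl M k
      rcases List.mem_cons.mp hb with rfl | hb
      · simpa [length_lab] using hb0
      · exact mem_labB M _ bs k (fun b hb => hbk b (List.mem_cons_of_mem _ hb)) b hb
    · rw [List.isChain_cons_cons]
      constructor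
      · rcases head_idl M k hk with h | h
        · exact ⟨.i0, .a r0 hsrc.symm, h, rfl, trivial⟩
        · exact ⟨.i0t, .a r0 hsrc.symm, h, rfl, trivial⟩
      · rcases bs with _ | ⟨b1, bs⟩
        · simp [labB]
        · rw [List.isChain_cons_cons] at hchain
          obtain ⟨⟨r, r', h4, h5, h6⟩, h7⟩ := hchain
          have h8 := chain_just M n _ h7 hne
          simp only [labB] at h8 ⊢
          rw [List.isChain_cons_cons]
          refine ⟨⟨.a r0 hsrc.symm, .m .just r', rfl, head_lab M _ _ _ h5, ?_⟩, h8⟩
          simp only [List.head?_cons, Option.some.injEq] at h4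
          subst h4
          exact h6

theorem inclusion (n : ℕ) (L : Set (List A)) (h : FSPDA n L) : FSPDA (n + 1) L := by
  obtain ⟨M, rfl⟩ := h
  exact ⟨nx M n, language_nx M n⟩

end Pool.Agent.Q312.SelfReg
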