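import Mathlib

/-!
A pumping theorem for pushdown systems: in every infinite sequence of computations there are two
such that the second one arises from the first one by inserting pumps, which can be iterated
independently of each other.
-/

namespace Pool.Agent.Q312.SelfReg

/-! ### A form of Ramsey's theorem -/

open Filter in
lemma ramsey_aux (E : ℕ → ℕ → Prop)
    (h : ∀ᶠ i in (hyperfilter ℕ : Filter ℕ), ∀ᶠ j in (hyperfilter ℕ : Filter ℕ), E i j) :
    ∃ g : ℕ → ℕ, StrictMono g ∧ ∀ i j, i < j → E (g i) (g j) := by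
  obtain ⟨g, -, hg⟩ := exists_seq_of_forall_finset_exists
    (fun i => ∀ᶠ j in (hyperfilter ℕ : Filter ℕ), E i j) (fun i j => i < j ∧ E i j) (by
    intro s hs
    have h1 : ∀ᶠ j in (hyperfilter ℕ : Filter ℕ), ∀ x ∈ s, x < j ∧ E x j := by
      rw [Filter.eventually_all_finset]
      intro x hx
      refine Filter.Eventually.and ?_ (hs x hx)
      have h2 : ∀ᶠ j in atTop, x < j := eventually_gt_atTop x
      rw [← Nat.cofinite_eq_atTop] at h2
      exact hyperfilter_le_cofinite h2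
    exact (h.and h1).exists)
  refine ⟨g, fun i j hij => (hg i j hij).1, fun i j hij => (hg i j hij).2⟩

open Filter in
theorem ramsey (E : ℕ → ℕ → Prop)
    (h : ∀ g : ℕ → ℕ, StrictMono g → ∃ i j, i < j ∧ E (g i) (g j)) :
    ∃ g : ℕ → ℕ, StrictMono g ∧ ∀ i j, i < j → E (g i) (g j) := by
  by_cases h1 : ∀ᶠ i in (hyperfilter ℕ : Filter ℕ), ∀ᶠ j in (hyperfilter ℕ : Filter ℕ), E i j
  · exact ramsey_aux E h1
  · exfalso
    rw [← Ultrafilter.eventually_not] at h1
    have h2 : ∀ᶠ i in (hyperfilter ℕ : Filter ℕ), ∀ᶠ j in (hyperfilter ℕ : Filter ℕ), ¬ E i j := by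
      filter_upwards [h1] with i hi
      exact Ultrafilter.eventually_not.mpr hi
    obtain ⟨g, hg, hg'⟩ := ramsey_aux (fun i j => ¬ E i j) h2
    obtain ⟨i, j, hij, h3⟩ := h g hg
    exact hg' i j hij h3

lemma ramsey_const {κ : Type} [Finite κ] (τ : ℕ → κ) :
    ∃ g : ℕ → ℕ, StrictMono g ∧ ∀ i j, τ (g i) = τ (g j) := by
  obtain ⟨g, hg, h⟩ := ramsey (fun i j => τ i = τ j) (by
    intro g hg
    obtain ⟨i, j, hij, h⟩ := Finite.exists_ne_map_eq_of_infinite (fun i => τ (g i))
    rcases lt_or_gt_of_ne hij with h' | h'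
    · exact ⟨i, j, h', h⟩
    · exact ⟨j, i, h', h.symm⟩)
  refine ⟨g, hg, fun i j => ?_⟩
  rcases lt_trichotomy i j with h' | rfl | h'
  · exact h i j h'
  · rfl
  · exact (h j i h').symm

/-! ### Weights and iteration -/

variable {S Γ Λ : Type}

/-- the weight of a word -/
def wt (f : Λ → ℕ) (z : List Λ) : ℕ := (z.map f).sum

lemma wt_nil (f : Λ → ℕ) : wt f [] = 0 := rfl

lemma wt_append (f : Λ → ℕ) (y z : List Λ) : wt f (y ++ z) = wt f y + wt f z := by
  simp [wt]

lemma wt_cons (f : Λ → ℕ) (x : Λ) (z : List Λ) : wt f (x :: z) = f x + wt f z := by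
  simp [wt]

/-- power of a word -/
def rep (k : ℕ) (u : List Λ) : List Λ := (List.replicate k u).flatten

lemma rep_succ (k : ℕ) (u : List Λ) : rep (k + 1) u = u ++ rep k u := rfl

lemma rep_succ' (k : ℕ) (u : List Λ) : rep (k + 1) u = rep k u ++ u := by
  rw [rep, List.replicate_succ', List.flatten_append]
  simp [rep]

lemma wt_rep (f : Λ → ℕ) (k : ℕ) (u : List Λ) : wt f (rep k u) = k * wt f u := by
  induction k with
  | zero => simp [rep, wt]
  | succ k ih => rw [rep_succ, wt_append, ih]; ring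

lemma infix_rep (k : ℕ) (u : List Λ) (hk : 2 ≤ k) : u ++ u <:+: rep k u := by
  obtain ⟨k, rfl⟩ := Nat.exists_eq_add_of_le' hk
  rw [rep_succ, rep_succ, ← List.append_assoc]
  exact (List.prefix_append _ _).isInfix

/-- the words `z ∈ G` obtained from `y` by iterating pumps -/
def Fam {ι : Type} [Fintype ι] (G : List Λ → Prop) (y : List Λ) (u v : ι → List Λ) : Prop :=
  ∀ c : ι → ℕ, ∃ z, G z ∧ (∀ f : Λ → ℕ, wt f z = wt f y + ∑ i, c i * (wt f (u i) + wt f (v i))) ∧
    ∀ i, 2 ≤ c i → (u i ++ u i <:+: z) ∧ (v i ++ v i <:+: z)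

lemma Fam.context {ι : Type} [Fintype ι] {G : List Λ → Prop} {y : List Λ} {u v : ι → List Λ}
    (h : Fam G y u v) (u0 v0 : List Λ) (h0 : ∀ z, G z → G (u0 ++ z ++ v0)) :
    Fam (ι := Option ι) G y (fun i => i.elim u0 u) (fun i => i.elim v0 v) := by
  intro c
  obtain ⟨z, hz, hw, hi⟩ := h (fun i => c (some i))
  have h1 : ∀ k, G (rep k u0 ++ z ++ rep k v0) := by
    intro k
    induction k with
    | zero => simpa [rep] using hz
    | succ k ih =>
      have := h0 _ ih
      rw [rep_succ, rep_succ']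
      simpa [List.append_assoc] using this
  refine ⟨rep (c none) u0 ++ z ++ rep (c none) v0, h1 _, ?_, ?_⟩
  · intro f
    rw [wt_append, wt_append, wt_rep, wt_rep, hw f, Fintype.sum_option]
    simp only [Option.elim]
    ring
  · intro i hci
    rcases i with _ | i
    · simp only [Option.elim]
      constructor
      · refine (infix_rep _ u0 hci).trans ?_
        rw [List.append_assoc]
        exact (List.prefix_append _ _).isInfix
      · exact (infix_rep _ v0 hci).trans (List.suffix_append _ _).isInfix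
    · simp only [Option.elim]
      have h2 : z <:+: rep (c none) u0 ++ z ++ rep (c none) v0 := ⟨_, _, rfl⟩
      exact ⟨(hi i hci).1.trans h2, (hi i hci).2.trans h2⟩

lemma Fam.node {ι1 ι2 : Type} [Fintype ι1] [Fintype ι2] {G1 G2 G : List Λ → Prop}
    {y1 y2 : List Λ} {u1 v1 : ι1 → List Λ} {u2 v2 : ι2 → List Λ}
    (h1 : Fam G1 y1 u1 v1) (h2 : Fam G2 y2 u2 v2) (x : Λ)
    (h : ∀ z1 z2, G1 z1 → G2 z2 → G (x :: (z1 ++ z2))) :
    Fam G (x :: (y1 ++ y2)) (Sum.elim u1 u2) (Sum.elim v1 v2) := by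
  intro c
  obtain ⟨z1, hz1, hw1, hi1⟩ := h1 (fun i => c (.inl i))
  obtain ⟨z2, hz2, hw2, hi2⟩ := h2 (fun i => c (.inr i))
  refine ⟨x :: (z1 ++ z2), h z1 z2 hz1 hz2, ?_, ?_⟩
  · intro f
    rw [wt_cons, wt_append, wt_cons, wt_append, hw1 f, hw2 f, Fintype.sum_sum_type]
    simp only [Sum.elim_inl, Sum.elim_inr]
    ring
  · have a1 : z1 <:+: x :: (z1 ++ z2) := ⟨[x], z2, by simp⟩
    have a2 : z2 <:+: x :: (z1 ++ z2) := ⟨x :: z1, [], by simp⟩
    intro i hci
    rcases i with i | i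
    · exact ⟨(hi1 i hci).1.trans a1, (hi1 i hci).2.trans a1⟩
    · exact ⟨(hi2 i hci).1.trans a2, (hi2 i hci).2.trans a2⟩

/-! ### Pushdown systems -/

section Sys

variable (Tr : S → Λ → S → Prop) (top : Λ → Γ) (push : Λ → List Γ)

/-- `Gen s γ s' y`: the sequence of moves `y` removes the pushdown contents `γ` and leads from the
state `s` to `s'`. -/
inductive Gen : S → List Γ → S → List Λ → Prop
  | nil (s : S) : Gen s [] s []
  | cons (x : Λ) (s s1 s2 s' : S) (γ : List Γ) (y y' : List Λ) : Tr s x s1 →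
      Gen s1 (push x) s2 y → Gen s2 γ s' y' → Gen s (top x :: γ) s' (x :: (y ++ y'))

/-- the words generated from a triple -/
def GG (N : S × List Γ × S) (z : List Λ) : Prop := Gen Tr top push N.1 N.2.1 N.2.2 z

/-- the relation between computations -/
def Rel (t t' : (S × List Γ × S) × List Λ) : Prop :=
  ∃ (u0 v0 : List Λ) (ι : Type) (_ : Fintype ι) (u v : ι → List Λ),
    (∀ z, GG Tr top push t.1 z → GG Tr top push t'.1 (u0 ++ z ++ v0)) ∧
    (∀ f : Λ → ℕ, wt f t'.2 = wt f u0 + wt f v0 + wt f t.2 + ∑ i, (wt f (u i) + wt f (v i))) ∧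
    Fam (GG Tr top push t.1) t.2 u v

variable {Tr top push}

lemma Rel.nil (s : S) : Rel Tr top push ((s, [], s), []) ((s, [], s), []) := by
  refine ⟨[], [], Empty, inferInstance, Empty.elim, Empty.elim, ?_, ?_, ?_⟩
  · intro z hz; simpa using hz
  · intro f; simp [wt]
  · intro c
    exact ⟨[], Gen.nil s, by intro f; simp, fun i => i.elim⟩

lemma Rel.node {x : Λ} {s s1 s2 s' : S} {γ : List Γ} {y1 y1' y2 y2' : List Λ}
    (hx : Tr s x s1)
    (h1 : Rel Tr top push ((s1, push x, s2), y1) ((s1, push x, s2), y1'))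
    (h2 : Rel Tr top push ((s2, γ, s'), y2) ((s2, γ, s'), y2')) :
    Rel Tr top push ((s, top x :: γ, s'), x :: (y1 ++ y2)) ((s, top x :: γ, s'), x :: (y1' ++ y2'))
    := by
  obtain ⟨u1, v1, ι1, _, p1, q1, a1, b1, c1⟩ := h1
  obtain ⟨u2, v2, ι2, _, p2, q2, a2, b2, c2⟩ := h2
  refine ⟨[], [], Option ι1 ⊕ Option ι2, inferInstance, _, _, ?_, ?_,
    (c1.context u1 v1 a1).node (c2.context u2 v2 a2) x ?_⟩
  · intro z hz; simpa using hz
  · intro f
    have hb1 := b1 f
    have hb2 := b2 f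
    simp only at hb1 hb2 ⊢
    rw [wt_cons, wt_append, wt_cons, wt_append, hb1, hb2, Fintype.sum_sum_type,
      Fintype.sum_option, Fintype.sum_option]
    simp only [Sum.elim_inl, Sum.elim_inr, Option.elim, wt_nil]
    ring
  · intro z1 z2 hz1 hz2
    exact Gen.cons x s s1 s2 s' γ z1 z2 hx hz1 hz2

lemma Rel.left {t : (S × List Γ × S) × List Λ} {x : Λ} {s s1 s2 s' : S} {γ : List Γ}
    {y1 y2 : List Λ} (hx : Tr s x s1) (h2 : Gen Tr top push s2 γ s' y2)
    (h : Rel Tr top push t ((s1, push x, s2), y1)) :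
    Rel Tr top push t ((s, top x :: γ, s'), x :: (y1 ++ y2)) := by
  obtain ⟨u1, v1, ι1, _, p1, q1, a1, b1, c1⟩ := h
  refine ⟨x :: u1, v1 ++ y2, ι1, inferInstance, p1, q1, ?_, ?_, c1⟩
  · intro z hz
    have := Gen.cons x s s1 s2 s' γ _ y2 hx (a1 z hz) h2
    simpa [GG, List.append_assoc] using this
  · intro f
    have hb1 := b1 f
    simp only at hb1 ⊢
    rw [wt_cons, wt_append, wt_cons, wt_append, hb1]
    ring

lemma Rel.right {t : (S × List Γ × S) × List Λ} {x : Λ} {s s1 s2 s' : S} {γ : List Γ}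
    {y1 y2 : List Λ} (hx : Tr s x s1) (h1 : Gen Tr top push s1 (push x) s2 y1)
    (h : Rel Tr top push t ((s2, γ, s'), y2)) :
    Rel Tr top push t ((s, top x :: γ, s'), x :: (y1 ++ y2)) := by
  obtain ⟨u1, v1, ι1, _, p1, q1, a1, b1, c1⟩ := h
  refine ⟨x :: (y1 ++ u1), v1, ι1, inferInstance, p1, q1, ?_, ?_, c1⟩
  · intro z hz
    have := Gen.cons x s s1 s2 s' γ y1 _ hx h1 (a1 z hz)
    simpa [GG, List.append_assoc] using this
  · intro f
    have hb1 := b1 f
    simp only at hb1 ⊢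
    rw [wt_cons, wt_append, wt_cons, wt_append, hb1]
    ring

/-- the computations with short pushdown words -/
def TT (Tr : S → Λ → S → Prop) (top : Λ → Γ) (push : Λ → List Γ) (B : ℕ) :
    Set ((S × List Γ × S) × List Λ) :=
  {t | t.1.2.1.length ≤ B ∧ GG Tr top push t.1 t.2}

theorem wellQuasi [Finite S] [Finite Γ] [Finite Λ] (B : ℕ) (hB : ∀ x, (push x).length ≤ B) :
    (TT Tr top push B).PartiallyWellOrderedOn (Rel Tr top push) := by
  rw [Set.PartiallyWellOrderedOn.iff_not_exists_isMinBadSeq (fun t => t.2.length)]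
  rintro ⟨f, hf, hmin⟩
  have : Finite {γ : List Γ // γ.length ≤ B} := (List.finite_length_le Γ B).to_subtype
  -- the shapes of the computations
  have h1 : ∀ n, ∃ (τ : S ⊕ (Λ × S × S × S × S × {γ : List Γ // γ.length ≤ B})) (y y' : List Λ),
      (∀ s, τ = .inl s → f n = ((s, [], s), [])) ∧
      ∀ x s s1 s2 s' γ, τ = .inr (x, s, s1, s2, s', γ) → Tr s x s1 ∧
        Gen Tr top push s1 (push x) s2 y ∧ Gen Tr top push s2 γ.1 s' y' ∧
        f n = ((s, top x :: γ.1, s'), x :: (y ++ y')) := by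
    intro n
    obtain ⟨hlen, hgen⟩ := hf.1 n
    rcases hfn : f n with ⟨⟨s, γ0, s'⟩, z⟩
    rw [hfn] at hlen hgen
    simp only [GG] at hgen
    cases hgen with
    | nil _ => exact ⟨.inl s, [], [], by rintro _ ⟨⟩; rfl, by rintro _ _ _ _ _ _ ⟨⟩⟩
    | cons x _ s1 s2 _ γ y y' a1 a2 a3 =>
      refine ⟨.inr (x, s, s1, s2, s', ⟨γ, ?_⟩), y, y', by rintro _ ⟨⟩, ?_⟩
      · simp only [List.length_cons] at hlen
        omega
      · rintro _ _ _ _ _ _ ⟨⟩
        exact ⟨a1, a2, a3, rfl⟩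
  choose τ y y' hinl hinr using h1
  obtain ⟨g0, hg0, hconst⟩ := ramsey_const τ
  rcases hτ : τ (g0 0) with s | ⟨x, s, s1, s2, s', γ⟩
  · have e0 := hinl (g0 0) s hτ
    have e1 := hinl (g0 1) s ((hconst 1 0).trans hτ)
    apply hf.2 (g0 0) (g0 1) (hg0 zero_lt_one)
    rw [e0, e1]
    exact Rel.nil s
  · have e : ∀ n, Tr s x s1 ∧ Gen Tr top push s1 (push x) s2 (y (g0 n)) ∧
        Gen Tr top push s2 γ.1 s' (y' (g0 n)) ∧
        f (g0 n) = ((s, top x :: γ.1, s'), x :: (y (g0 n) ++ y' (g0 n))) :=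
      fun n => hinr (g0 n) x s s1 s2 s' γ ((hconst n 0).trans hτ)
    -- sequences of children
    have key : ∀ ch : ℕ → (S × List Γ × S) × List Λ, (∀ n, ch n ∈ TT Tr top push B) →
        (∀ n, (ch n).2.length < (f (g0 n)).2.length) →
        (∀ t n, Rel Tr top push t (ch n) → Rel Tr top push t (f (g0 n))) →
        ∀ h : ℕ → ℕ, StrictMono h → ∃ i j, i < j ∧ Rel Tr top push (ch (h i)) (ch (h j)) := by
      intro ch c1 c2 c3 h hh
      by_contra hcon
      push Not at hcon
      set N0 := g0 (h 0) with hN0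
      refine hmin N0 (fun m => if m < N0 then f m else ch (h (m - N0))) ?_ ?_ ⟨?_, ?_⟩
      · intro m hm; simp [hm]
      · simp only [lt_irrefl, if_false, Nat.sub_self]
        exact c2 (h 0)
      · intro m
        by_cases hm : m < N0
        · simp only [hm, if_true]; exact hf.1 m
        · simp only [hm, if_false]; exact c1 _
      · intro i j hij
        by_cases hj : j < N0
        · have hi : i < N0 := hij.trans hj
          simp only [hj, hi, if_true]
          exact hf.2 i j hij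
        · by_cases hi : i < N0
          · simp only [hi, hj, if_true, if_false]
            intro hr
            refine hf.2 i (g0 (h (j - N0))) ?_ (c3 _ _ hr)
            have : g0 (h 0) ≤ g0 (h (j - N0)) := hg0.monotone (hh.monotone (Nat.zero_le _))
            omega
          · simp only [hi, hj, if_false]
            exact hcon _ _ (by omega)
    have k1 := key (fun n => ((s1, push x, s2), y (g0 n)))
      (fun n => ⟨hB x, (e n).2.1⟩)
      (fun n => by rw [(e n).2.2.2]; simp)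
      (fun t n hr => by rw [(e n).2.2.2]; exact Rel.left (e n).1 (e n).2.2.1 hr)
    have k2 := key (fun n => ((s2, γ.1, s'), y' (g0 n)))
      (fun n => ⟨γ.2, (e n).2.2.1⟩)
      (fun n => by rw [(e n).2.2.2]; simp)
      (fun t n hr => by rw [(e n).2.2.2]; exact Rel.right (e n).1 (e n).2.1 hr)
    obtain ⟨g1, hg1, hr1⟩ := ramsey (fun i j => Rel Tr top push ((s1, push x, s2), y (g0 i))
      ((s1, push x, s2), y (g0 j))) k1
    obtain ⟨i, j, hij, hr2⟩ := k2 g1 hg1
    apply hf.2 (g0 (g1 i)) (g0 (g1 j)) (hg0 (hg1 hij))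
    rw [(e _).2.2.2, (e _).2.2.2]
    exact Rel.node (e 0).1 (hr1 i j hij) hr2

/-- The pumping theorem. -/
theorem pumping [Finite S] [Finite Γ] [Finite Λ] (s : S) (γ : List Γ) (s' : ℕ → S)
    (y : ℕ → List Λ) (h : ∀ m, Gen Tr top push s γ (s' m) (y m)) :
    ∃ i j, i < j ∧ ∃ (ι : Type) (_ : Fintype ι) (u v : ι → List Λ),
      (∀ f : Λ → ℕ, wt f (y j) = wt f (y i) + ∑ l, (wt f (u l) + wt f (v l))) ∧
      Fam (Gen Tr top push s γ (s' i)) (y i) u v := by
  obtain ⟨B, hB⟩ : ∃ B, (∀ x, (push x).length ≤ B) ∧ γ.length ≤ B := by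
    obtain ⟨B, hB⟩ := (Set.finite_range (fun x => (push x).length)).bddAbove
    exact ⟨max B γ.length, fun x => (hB ⟨x, rfl⟩).trans (le_max_left _ _), le_max_right _ _⟩
  obtain ⟨g, hg, hc⟩ := ramsey_const s'
  have h1 := (Set.partiallyWellOrderedOn_iff_exists_lt.mp
    (wellQuasi (Tr := Tr) (top := top) (push := push) B hB.1))
    (fun n => ((s, γ, s' (g n)), y (g n))) (fun n => ⟨hB.2, h (g n)⟩)
  obtain ⟨i, j, hij, u0, v0, ι, _, u, v, a, b, c⟩ := h1
  refine ⟨g i, g j, hg hij, Option ι, inferInstance, _, _, ?_,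
    c.context u0 v0 ?_⟩
  · intro f
    have hb := b f
    simp only at hb
    rw [hb, Fintype.sum_option]
    simp only [Option.elim]
    ring
  · intro z hz
    have := a z hz
    simp only [GG] at this ⊢
    rwa [hc j i] at this

end Sys

end Pool.Agent.Q312.SelfReg
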