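import Pool.Agent.Q312.SelfReg.Defs
import Pool.Agent.Q312.SelfReg.Pump
import Pool.Agent.Q312.SelfReg.Cover

/-!
The lower bound: a language of words containing each of at least `2 n + 3` letters equally often,
in which a square `u u` occurs only for powers `u` of a letter, is not in `FSPDA n`.
-/

namespace Pool.Agent.Q312.SelfReg

variable {A : Type}

/-- control states: nothing, or (turn state visited, number of the block, first label of it) -/
abbrev Ctl (M : SPDA A) (n : ℕ) := Option (Bool × Fin (n + 1) × M.Ψ)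

/-- steps of the control -/
inductive Cs (M : SPDA A) (n : ℕ) : Ctl M n → M.Ψ × Fin (n + 1) → Ctl M n → Prop
  | start (r : M.Ψ) (t : Bool) : (t = true ↔ M.tgt r = M.qt) → Cs M n none (r, 0) (some (t, 0, r))
  | stay0 (s r : M.Ψ) (t : Bool) : (t = true ↔ M.tgt r = M.qt) →
      Cs M n (some (false, 0, s)) (r, 0) (some (t, 0, s))
  | stay (b : Fin (n + 1)) (s r : M.Ψ) : b ≠ 0 →
      Cs M n (some (true, b, s)) (r, b) (some (true, b, s))
  | next (b b' : Fin (n + 1)) (s r : M.Ψ) : b'.val = b.val + 1 → M.R s r →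
      Cs M n (some (true, b, s)) (r, b') (some (true, b', r))

/-- sequences of steps of the control -/
inductive Path (M : SPDA A) (n : ℕ) : Ctl M n → List (M.Ψ × Fin (n + 1)) → Ctl M n → Prop
  | nil (κ : Ctl M n) : Path M n κ [] κ
  | cons (κ κ1 κ' : Ctl M n) (x : M.Ψ × Fin (n + 1)) (y : List (M.Ψ × Fin (n + 1))) :
      Cs M n κ x κ1 → Path M n κ1 y κ' → Path M n κ (x :: y) κ'

lemma Path.append {M : SPDA A} {n : ℕ} {κ κ1 κ' : Ctl M n} {y y' : List (M.Ψ × Fin (n + 1))}
    (h : Path M n κ y κ1) (h' : Path M n κ1 y' κ') : Path M n κ (y ++ y') κ' := by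
  induction h with
  | nil κ => exact h'
  | cons κ κ2 κ3 x y hx _ ih => exact .cons _ _ _ _ _ hx (ih h')

/-- transitions of the pushdown system -/
def Tr (M : SPDA A) (n : ℕ) (s : M.Q × Ctl M n) (x : M.Ψ × Fin (n + 1)) (s' : M.Q × Ctl M n) :
    Prop := M.src x.1 = s.1 ∧ M.tgt x.1 = s'.1 ∧ Cs M n s.2 x s'.2

/-- computations of the pushdown system -/
abbrev GM (M : SPDA A) (n : ℕ) := Gen (Tr M n) (fun x => M.top x.1) (fun x => M.push x.1)

/-- the word read by a computation -/
def inpw (M : SPDA A) {n : ℕ} (y : List (M.Ψ × Fin (n + 1))) : List A :=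
  (y.map fun x => M.inp x.1).flatten

lemma inpw_append (M : SPDA A) {n : ℕ} (y y' : List (M.Ψ × Fin (n + 1))) :
    inpw M (y ++ y') = inpw M y ++ inpw M y' := by simp [inpw]

lemma inpw_cons (M : SPDA A) {n : ℕ} (x : M.Ψ × Fin (n + 1)) (y : List (M.Ψ × Fin (n + 1))) :
    inpw M (x :: y) = M.inp x.1 ++ inpw M y := by simp [inpw]

lemma gen_split (M : SPDA A) (n : ℕ) (γ1 γ2 : List M.Γ) (s s' : M.Q × Ctl M n)
    (y : List (M.Ψ × Fin (n + 1))) (h : GM M n s (γ1 ++ γ2) s' y) :
    ∃ s2 y1 y2, y = y1 ++ y2 ∧ GM M n s γ1 s2 y1 ∧ GM M n s2 γ2 s' y2 := by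
  induction γ1 generalizing s y with
  | nil => exact ⟨s, [], y, rfl, .nil s, h⟩
  | cons g γ1 ih =>
    have h' : GM M n s (g :: (γ1 ++ γ2)) s' y := h
    generalize hl : g :: (γ1 ++ γ2) = l at h'
    cases h' with
    | nil _ => simp at hl
    | cons x _ s1 s2 _ γ y1 y2 a1 a2 a3 =>
      injection hl with h1 h2
      subst h1
      rw [← h2] at a3
      obtain ⟨s3, z1, z2, rfl, b1, b2⟩ := ih s2 y2 a3
      exact ⟨s3, x :: (y1 ++ z1), z2, by simp, .cons x s s1 s2 s3 γ1 y1 z1 a1 a2 b1, b2⟩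

lemma gen_of_run (M : SPDA A) (n : ℕ) (c c' : List M.Γ × M.Q × List A) (μ : List M.Ψ)
    (h : M.Run c μ c') (hc' : c'.1 = []) (y : List (M.Ψ × Fin (n + 1))) (κ κ' : Ctl M n)
    (hy : y.map Prod.fst = μ) (hp : Path M n κ y κ') :
    GM M n (c.2.1, κ) c.1 (c'.2.1, κ') y := by
  induction h generalizing y κ with
  | nil c =>
    have : y = [] := List.map_eq_nil_iff.mp hy
    subst this
    cases hp
    rw [hc']
    exact .nil _
  | cons r β v μ c h ih =>
    rcases y with _ | ⟨x, y⟩
    · simp at hy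
    simp only [List.map_cons, List.cons.injEq] at hy
    obtain ⟨hx, hy⟩ := hy
    cases hp with
    | cons _ κ1 _ _ _ a1 a2 =>
      have h1 := ih hc' y κ1 hy a2
      obtain ⟨s2, y1, y2, rfl, b1, b2⟩ := gen_split M n _ _ _ _ _ h1
      subst hx
      exact .cons x _ (M.tgt x.1, κ1) s2 _ β y1 y2 ⟨rfl, rfl, a1⟩ b1 b2

lemma run_of_gen (M : SPDA A) (n : ℕ) (s s' : M.Q × Ctl M n) (γ : List M.Γ)
    (y : List (M.Ψ × Fin (n + 1))) (h : GM M n s γ s' y) (β : List M.Γ) (v : List A)
    (μ : List M.Ψ) (c : List M.Γ × M.Q × List A) (hr : M.Run (β, s'.1, v) μ c) :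
    M.Run (γ ++ β, s.1, inpw M y ++ v) (y.map Prod.fst ++ μ) c := by
  induction h generalizing β v μ with
  | nil s => exact hr
  | cons x s s1 s2 s' γ y y' a1 a2 a3 ih1 ih2 =>
    obtain ⟨b1, b2, -⟩ := a1
    have h1 := ih2 β v μ hr
    have h2 := ih1 (γ ++ β) (inpw M y' ++ v) (y'.map Prod.fst ++ μ) h1
    rw [← b2] at h2
    have h3 := SPDA.Run.cons x.1 _ _ _ _ h2
    rw [b1] at h3
    simpa [inpw_cons, inpw_append, List.append_assoc] using h3

lemma path_of_gen (M : SPDA A) (n : ℕ) (s s' : M.Q × Ctl M n) (γ : List M.Γ)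
    (y : List (M.Ψ × Fin (n + 1))) (h : GM M n s γ s' y) : Path M n s.2 y s'.2 := by
  induction h with
  | nil s => exact .nil _
  | cons x s s1 s2 s' γ y y' a1 a2 a3 ih1 ih2 => exact .cons _ _ _ _ _ a1.2.2 (ih1.append ih2)

/-- the number of labels in the block `i` -/
def cnt {M : SPDA A} {n : ℕ} (i : ℕ) (y : List (M.Ψ × Fin (n + 1))) : ℕ :=
  wt (fun x => if x.2.val = i then 1 else 0) y

lemma cnt_cons {M : SPDA A} {n : ℕ} (i : ℕ) (x : M.Ψ × Fin (n + 1))
    (y : List (M.Ψ × Fin (n + 1))) : cnt i (x :: y) = (if x.2.val = i then 1 else 0) + cnt i y :=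
  wt_cons _ _ _

lemma cnt_cons_ne {M : SPDA A} {n : ℕ} (i : ℕ) (x : M.Ψ × Fin (n + 1))
    (y : List (M.Ψ × Fin (n + 1))) (h : x.2.val ≠ i) : cnt i (x :: y) = cnt i y := by
  rw [cnt_cons, if_neg h, zero_add]

lemma turn_cons {M : SPDA A} (r : M.Ψ) (y0 : List M.Ψ) (t : Bool)
    (ht : t = true ↔ M.tgt r = M.qt) (h : (t = true ∧ y0 = []) ∨ (t = false ∧ M.TurnAtEnd y0)) :
    M.TurnAtEnd (r :: y0) := by
  rcases h with ⟨h1, rfl⟩ | ⟨h1, b, x, rfl, h2, h3⟩
  · exact ⟨[], r, rfl, ht.mp h1, by simp⟩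
  · refine ⟨r :: b, x, rfl, h2, ?_⟩
    intro r' hr'
    rcases List.mem_cons.mp hr' with rfl | h
    · intro h4
      rw [ht.mpr h4] at h1
      exact absurd h1 (by simp)
    · exact h3 r' h

lemma path_blocks (M : SPDA A) (n : ℕ) (κ κ' : Ctl M n) (y : List (M.Ψ × Fin (n + 1)))
    (h : Path M n κ y κ') (s' : M.Ψ) (hκ' : κ' = some (true, Fin.last n, s')) (t : Bool)
    (b : Fin (n + 1)) (s : M.Ψ) (hκ : κ = some (t, b, s)) :
    ∃ (y0 : List M.Ψ) (bs : List (List M.Ψ)), y.map Prod.fst = y0 ++ bs.flatten ∧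
      bs.length + b.val = n ∧ ([s] :: bs).IsChain M.HeadRel ∧ cnt b.val y = y0.length ∧
      (∀ i < b.val, cnt i y = 0) ∧
      (∀ k, (∀ i, b.val < i → i ≤ n → cnt i y = k) → ∀ b' ∈ bs, b'.length = k) ∧
      (b = 0 → (t = true ∧ y0 = []) ∨ (t = false ∧ M.TurnAtEnd y0)) := by
  induction h generalizing t b s with
  | nil κ =>
    rw [hκ'] at hκ
    simp only [Option.some.injEq, Prod.mk.injEq] at hκ
    obtain ⟨rfl, rfl, rfl⟩ := hκ
    exact ⟨[], [], rfl, by simp, by simp, rfl, fun _ _ => rfl, by simp, fun _ => Or.inl ⟨rfl, rfl⟩⟩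
  | cons κ κ1 κ2 x y hx _ ih =>
    subst hκ
    cases hx with
    | stay0 _ r t' ht =>
      obtain ⟨y0, bs, h1, h2, h3, h4, h5, h6, h7⟩ := ih hκ' t' 0 s rfl
      refine ⟨r :: y0, bs, by simp [h1], h2, h3, ?_, ?_, ?_, ?_⟩
      · rw [cnt_cons, h4]; simp; ring
      · intro i hi; simp at hi
      · intro k hk
        apply h6 k
        intro i hi hin
        rw [← hk i hi hin, cnt_cons_ne]
        exact hi.ne
      · intro _
        exact Or.inr ⟨rfl, turn_cons r y0 t' ht (h7 rfl)⟩
    | stay _ _ r hb =>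
      obtain ⟨y0, bs, h1, h2, h3, h4, h5, h6, h7⟩ := ih hκ' true b s rfl
      refine ⟨r :: y0, bs, by simp [h1], h2, h3, ?_, ?_, ?_, ?_⟩
      · rw [cnt_cons, h4]; simp; ring
      · intro i hi
        rw [cnt_cons, h5 i hi]
        simp only
        rw [if_neg (by omega)]
      · intro k hk
        apply h6 k
        intro i hi hin
        rw [← hk i hi hin, cnt_cons]
        simp only
        rw [if_neg (by omega)]
        omega
      · intro h; exact absurd h hb
    | next _ b' _ r hb' hR =>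
      obtain ⟨y0, bs, h1, h2, h3, h4, h5, h6, h7⟩ := ih hκ' true b' r rfl
      refine ⟨[], (r :: y0) :: bs, by simp [h1], by simp only [List.length_cons]; omega, ?_, ?_,
        ?_, ?_, fun _ => Or.inl ⟨rfl, rfl⟩⟩
      · rw [List.isChain_cons_cons]
        refine ⟨⟨s, r, rfl, rfl, hR⟩, ?_⟩
        rcases bs with _ | ⟨b1, bs⟩
        · simp
        · rw [List.isChain_cons_cons] at h3 ⊢
          obtain ⟨⟨a1, a2, a3, a4, a5⟩, a6⟩ := h3
          simp only [List.head?_cons, Option.some.injEq] at a3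
          subst a3
          exact ⟨⟨r, a2, rfl, a4, a5⟩, a6⟩
      · rw [cnt_cons, h5 b.val (by omega)]
        simp only [List.length_nil]
        rw [if_neg (by omega)]
      · intro i hi
        rw [cnt_cons, h5 i (by omega)]
        simp only
        rw [if_neg (by omega)]
      · intro k hk b'' hb''
        rcases List.mem_cons.mp hb'' with rfl | hb''
        · have := hk b'.val (by omega) (by omega)
          rw [cnt_cons, h4] at this
          simp only [if_true] at this
          simp only [List.length_cons]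
          omega
        · apply h6 k _ b'' hb''
          intro i hi hin
          rw [← hk i (by omega) hin, cnt_cons]
          simp only
          rw [if_neg (by omega)]
          omega

lemma shape_of_path (M : SPDA A) (n : ℕ) (s' : M.Ψ) (y : List (M.Ψ × Fin (n + 1)))
    (h : Path M n none y (some (true, Fin.last n, s'))) (k : ℕ)
    (hk : ∀ i, i ≤ n → cnt i y = k) : M.Shape n (y.map Prod.fst) := by
  cases h with
  | cons _ κ1 _ x y hx h =>
    cases hx with
    | start r t ht =>
      obtain ⟨y0, bs, h1, h2, h3, h4, h5, h6, h7⟩ := path_blocks M n _ _ _ h s' rfl t 0 r rfl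
      have hk0 : k = y0.length + 1 := by
        have := hk 0 (Nat.zero_le _)
        rw [cnt_cons] at this
        have h4' : cnt 0 y = y0.length := h4
        rw [h4'] at this
        simp at this
        omega
      refine ⟨k, r :: y0, bs, by omega, by simpa using h2, by simp [h1], ?_, ?_, ?_⟩
      · intro b hb
        rcases List.mem_cons.mp hb with rfl | hb
        · simp [hk0]
        · apply h6 k _ b hb
          intro i hi hin
          rw [← hk i hin, cnt_cons_ne]
          exact hi.ne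
      · exact turn_cons r y0 t ht (h7 rfl)
      · rcases bs with _ | ⟨b1, bs⟩
        · simp
        · rw [List.isChain_cons_cons] at h3 ⊢
          obtain ⟨⟨a1, a2, a3, a4, a5⟩, a6⟩ := h3
          simp only [List.head?_cons, Option.some.injEq] at a3
          subst a3
          exact ⟨⟨r, a2, rfl, a4, a5⟩, a6⟩

lemma path_first (M : SPDA A) (n : ℕ) (s l : M.Ψ) (tl : List M.Ψ) (t : Bool)
    (ht : t = true ↔ M.tgt l = M.qt) (h : M.TurnAtEnd (l :: tl)) :
    Path M n (some (t, 0, s)) (tl.map fun r => (r, 0)) (some (true, 0, s)) := by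
  classical
  induction tl generalizing l t with
  | nil =>
    obtain ⟨b, x, h1, h2, -⟩ := h
    rcases b with _ | ⟨z, b⟩
    · simp only [List.nil_append, List.cons.injEq, and_true] at h1
      subst h1
      rw [ht.mpr h2]
      exact .nil _
    · simp at h1
  | cons r tl ih =>
    obtain ⟨b, x, h1, h2, h3⟩ := h
    rcases b with _ | ⟨z, b⟩
    · simp at h1
    · simp only [List.cons_append, List.cons.injEq] at h1
      obtain ⟨rfl, h1⟩ := h1
      have h4 := h3 l (by simp)
      have ht' : t = false := by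
        rcases t with _ | _
        · rfl
        · exact absurd (ht.mp rfl) h4
      subst ht'
      have h5 := ih r (decide (M.tgt r = M.qt)) (by simp)
        ⟨b, x, h1, h2, fun r' hr' => h3 r' (by simp [hr'])⟩
      exact .cons _ _ _ _ _ (.stay0 s r _ (by simp)) h5

lemma cnt_map {M : SPDA A} {n : ℕ} (i : ℕ) (b : Fin (n + 1)) (l : List M.Ψ) :
    cnt i (l.map fun r => (r, b)) = if b.val = i then l.length else 0 := by
  induction l with
  | nil => simp [cnt, wt]
  | cons r l ih =>
    rw [List.map_cons, cnt_cons, ih]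
    by_cases h : b.val = i
    · simp [h]; omega
    · simp [h]

lemma cnt_append {M : SPDA A} {n : ℕ} (i : ℕ) (y z : List (M.Ψ × Fin (n + 1))) :
    cnt i (y ++ z) = cnt i y + cnt i z := wt_append _ _ _

lemma path_stay (M : SPDA A) (n : ℕ) (s : M.Ψ) (tl : List M.Ψ) (b : Fin (n + 1)) (hb : b ≠ 0) :
    Path M n (some (true, b, s)) (tl.map fun r => (r, b)) (some (true, b, s)) := by
  induction tl with
  | nil => exact .nil _
  | cons r tl ih => exact .cons _ _ _ _ _ (.stay b s r hb) ih

lemma path_rest (M : SPDA A) (n k : ℕ) (bs : List (List M.Ψ)) (b : Fin (n + 1)) (s : M.Ψ)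
    (hb : bs.length + b.val = n) (hch : ([s] :: bs).IsChain M.HeadRel)
    (hk : ∀ b' ∈ bs, b'.length = k) :
    ∃ (y : List (M.Ψ × Fin (n + 1))) (s' : M.Ψ), y.map Prod.fst = bs.flatten ∧
      Path M n (some (true, b, s)) y (some (true, Fin.last n, s')) ∧
      ∀ i, i ≤ n → cnt i y = if b.val < i then k else 0 := by
  induction bs generalizing b s with
  | nil =>
    have hb' : b = Fin.last n := Fin.ext (by simpa using hb)
    subst hb'
    refine ⟨[], s, rfl, .nil _, fun i hi => ?_⟩
    simp only [Fin.val_last]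
    rw [if_neg (by omega)]
    rfl
  | cons blk bs ih =>
    rw [List.isChain_cons_cons] at hch
    obtain ⟨⟨a1, a2, a3, a4, a5⟩, a6⟩ := hch
    simp only [List.head?_cons, Option.some.injEq] at a3
    subst a3
    rcases blk with _ | ⟨r, tl⟩
    · simp at a4
    simp only [List.head?_cons, Option.some.injEq] at a4
    subst a4
    simp only [List.length_cons] at hb
    have hb1 : b.val + 1 < n + 1 := by omega
    have hch' : ([r] :: bs).IsChain M.HeadRel := by
      rcases bs with _ | ⟨b1, bs⟩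
      · simp
      · rw [List.isChain_cons_cons] at a6 ⊢
        obtain ⟨⟨c1, c2, c3, c4, c5⟩, c6⟩ := a6
        simp only [List.head?_cons, Option.some.injEq] at c3
        subst c3
        exact ⟨⟨r, c2, rfl, c4, c5⟩, c6⟩
    obtain ⟨y, s', h1, h2, h3⟩ := ih ⟨b.val + 1, hb1⟩ r (by simp only; omega) hch'
      (fun b' hb' => hk b' (by simp [hb']))
    have hkk : (r :: tl).length = k := hk _ (by simp)
    refine ⟨((r :: tl).map fun r => (r, (⟨b.val + 1, hb1⟩ : Fin (n + 1)))) ++ y, s', ?_, ?_, ?_⟩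
    · simp [h1, Function.comp_def]
    · refine .cons _ _ _ _ _ (.next b ⟨b.val + 1, hb1⟩ s r rfl a5) ?_
      exact (path_stay M n r tl _ (fun h => by simpa using congrArg Fin.val h)).append h2
    · intro i hi
      rw [cnt_append, cnt_map, h3 i hi, hkk]
      simp only
      split_ifs <;> omega

lemma path_of_shape (M : SPDA A) (n : ℕ) (μ : List M.Ψ) (h : M.Shape n μ) :
    ∃ (y : List (M.Ψ × Fin (n + 1))) (s' : M.Ψ) (k : ℕ), y.map Prod.fst = μ ∧
      Path M n none y (some (true, Fin.last n, s')) ∧ ∀ i, i ≤ n → cnt i y = k := by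
  classical
  obtain ⟨k, b0, bs, hk, hlen, rfl, hbk, hturn, hch⟩ := h
  have hb0 := hbk b0 (by simp)
  rcases b0 with _ | ⟨r, tl⟩
  · simp at hb0; omega
  have hch' : ([r] :: bs).IsChain M.HeadRel := by
    rcases bs with _ | ⟨b1, bs⟩
    · simp
    · rw [List.isChain_cons_cons] at hch ⊢
      obtain ⟨⟨c1, c2, c3, c4, c5⟩, c6⟩ := hch
      simp only [List.head?_cons, Option.some.injEq] at c3
      subst c3
      exact ⟨⟨r, c2, rfl, c4, c5⟩, c6⟩
  obtain ⟨y, s', h1, h2, h3⟩ := path_rest M n k bs 0 r (by simpa using hlen) hch'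
    (fun b' hb' => hbk b' (by simp [hb']))
  refine ⟨((r :: tl).map fun r => (r, (0 : Fin (n + 1)))) ++ y, s', k, ?_, ?_, ?_⟩
  · simp [h1, Function.comp_def]
  · refine .cons _ _ _ _ _ (.start r (decide (M.tgt r = M.qt)) (by simp)) ?_
    exact (path_first M n r r tl _ (by simp) hturn).append h2
  · intro i hi
    rw [cnt_append, cnt_map, h3 i hi, hb0]
    change (if 0 = i then k else 0) + (if 0 < i then k else 0) = k
    split_ifs <;> omega

/-- membership in the language in terms of the pushdown system -/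
lemma mem_language (M : SPDA A) (n : ℕ) (f : M.Q) (hf : f ∈ M.F) (s' : M.Ψ)
    (y : List (M.Ψ × Fin (n + 1)))
    (h : GM M n (M.q0, none) [M.Z0] (f, some (true, Fin.last n, s')) y) (k : ℕ)
    (hk : ∀ i, i ≤ n → cnt i y = k) : inpw M y ∈ M.language n := by
  refine ⟨f, hf, y.map Prod.fst, ?_, shape_of_path M n s' y (path_of_gen M n _ _ _ _ h) k hk⟩
  have := run_of_gen M n _ _ _ _ h [] [] [] _ (.nil _)
  simpa using this

lemma exists_gen (M : SPDA A) (n : ℕ) (w : List A) (hw : w ∈ M.language n) :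
    ∃ (f : M.Q) (s' : M.Ψ) (y : List (M.Ψ × Fin (n + 1))) (k : ℕ), f ∈ M.F ∧
      GM M n (M.q0, none) [M.Z0] (f, some (true, Fin.last n, s')) y ∧
      (∀ i, i ≤ n → cnt i y = k) ∧ inpw M y = w := by
  obtain ⟨f, hf, μ, hrun, hshape⟩ := hw
  obtain ⟨y, s', k, h1, h2, h3⟩ := path_of_shape M n μ hshape
  have hg := gen_of_run M n _ _ μ hrun rfl y none _ h1 h2
  refine ⟨f, s', y, k, hf, hg, h3, ?_⟩
  -- the input read is determined by the labels
  have key : ∀ (c c' : List M.Γ × M.Q × List A) (μ : List M.Ψ), M.Run c μ c' →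
      ∀ y : List (M.Ψ × Fin (n + 1)), y.map Prod.fst = μ → c.2.2 = inpw M y ++ c'.2.2 := by
    intro c c' μ h
    induction h with
    | nil c =>
      intro y hy
      rw [List.map_eq_nil_iff.mp hy]
      rfl
    | cons r β v μ c _ ih =>
      intro y hy
      rcases y with _ | ⟨x, y⟩
      · simp at hy
      simp only [List.map_cons, List.cons.injEq] at hy
      obtain ⟨hx, hy⟩ := hy
      have := ih y hy
      simp only at this ⊢
      rw [this, inpw_cons, hx]
      simp
  have := key _ _ μ hrun y h1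
  simpa using this.symm

open Classical in
lemma count_inpw (M : SPDA A) {n : ℕ} (a : A) (y : List (M.Ψ × Fin (n + 1))) :
    (inpw M y).count a = wt (fun x => (M.inp x.1).count a) y := by
  induction y with
  | nil => rfl
  | cons x y ih => rw [inpw_cons, List.count_append, ih, wt_cons]

open Classical in
theorem lower [Fintype A] (n : ℕ) (hA : 2 * n + 3 ≤ Fintype.card A) (L : Set (List A))
    (hc : ∀ w ∈ L, ∀ a b : A, w.count a = w.count b)
    (hi : ∀ w ∈ L, ∀ u : List A, u ++ u <:+: w → ∀ x ∈ u, ∀ y ∈ u, x = y)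
    (hL : ∀ m, ∃ w ∈ L, ∀ a, w.count a = m) : ¬ FSPDA n L := by
  rintro ⟨M, hM⟩
  have h1 : ∀ m : ℕ, ∃ (f : M.Q) (s' : M.Ψ) (y : List (M.Ψ × Fin (n + 1))) (k : ℕ), f ∈ M.F ∧
      GM M n (M.q0, none) [M.Z0] (f, some (true, Fin.last n, s')) y ∧
      (∀ i, i ≤ n → cnt i y = k) ∧ inpw M y ∈ L ∧ ∀ a, (inpw M y).count a = m := by
    intro m
    obtain ⟨w, hw, hwm⟩ := hL m
    obtain ⟨f, s', y, k, b1, b2, b3, b4⟩ := exists_gen M n w (by rw [hM]; exact hw)
    exact ⟨f, s', y, k, b1, b2, b3, by rw [b4]; exact hw, by rw [b4]; exact hwm⟩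
  choose f s' y k hf hg hk hy hcount using h1
  have := M.finQ
  have := M.finΓ
  have := M.finΨ
  obtain ⟨i, j, hij, ι, _, u, v, hwt, hfam⟩ := pumping (M.q0, (none : Ctl M n)) [M.Z0]
    (fun m => (f m, some (true, Fin.last n, s' m))) y hg
  -- the words generated by balanced coefficients
  have hgen : ∀ c : ι → ℕ, (∀ b : Fin (n + 1), ∑ l, c l * (cnt b.val (u l) + cnt b.val (v l)) =
      ∑ l, c l * (cnt (0 : Fin (n + 1)).val (u l) + cnt (0 : Fin (n + 1)).val (v l))) →
      ∃ z, inpw M z ∈ L ∧ (∀ g, wt g z = wt g (y i) + ∑ l, c l * (wt g (u l) + wt g (v l))) ∧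
      ∀ l, 2 ≤ c l → (u l ++ u l <:+: z) ∧ (v l ++ v l <:+: z) := by
    intro c hc
    obtain ⟨z, hz, hz1, hz2⟩ := hfam c
    refine ⟨z, ?_, hz1, hz2⟩
    rw [← hM]
    refine mem_language M n (f i) (hf i) (s' i) z hz (k i + ∑ l, c l *
      (cnt (0 : Fin (n + 1)).val (u l) + cnt (0 : Fin (n + 1)).val (v l))) ?_
    intro b hb
    have e1 := hz1 (fun x => if x.2.val = b then 1 else 0)
    have e2 := hc ⟨b, by omega⟩
    change cnt b z = cnt b (y i) + ∑ l, c l * (cnt b (u l) + cnt b (v l)) at e1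
    rw [e1, hk i b hb]
    exact congrArg _ e2
  have H1 : ∀ b : Fin (n + 1), ∑ l, (cnt b.val (u l) + cnt b.val (v l)) =
      ∑ l, (cnt (0 : Fin (n + 1)).val (u l) + cnt (0 : Fin (n + 1)).val (v l)) := by
    intro b
    have e1 := hwt (fun x => if x.2.val = b.val then 1 else 0)
    have e2 := hwt (fun x => if x.2.val = (0 : Fin (n + 1)).val then 1 else 0)
    change cnt b.val (y j) = cnt b.val (y i) + ∑ l, (cnt b.val (u l) + cnt b.val (v l)) at e1
    change cnt (0 : Fin (n + 1)).val (y j) = cnt (0 : Fin (n + 1)).val (y i) +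
      ∑ l, (cnt (0 : Fin (n + 1)).val (u l) + cnt (0 : Fin (n + 1)).val (v l)) at e2
    have hb := b.2
    rw [hk j _ (by omega), hk i _ (by omega)] at e1
    rw [hk j _ (by simp), hk i _ (by simp)] at e2
    omega
  refine cover_false n hA (fun l b => cnt b.val (u l) + cnt b.val (v l))
    (fun l a => (inpw M (u l)).count a + (inpw M (v l)).count a) H1 ?_ ?_ ?_
  · intro a h0
    have e1 := hwt (fun x => (M.inp x.1).count a)
    rw [← count_inpw, ← count_inpw, hcount, hcount] at e1
    simp only [← count_inpw] at e1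
    rw [h0] at e1
    omega
  · intro c hcb a b
    obtain ⟨z, hz, hz1, -⟩ := hgen c hcb
    have e1 := hz1 (fun x => (M.inp x.1).count a)
    have e2 := hz1 (fun x => (M.inp x.1).count b)
    rw [← count_inpw, ← count_inpw, hcount] at e1 e2
    simp only [← count_inpw] at e1 e2
    rw [hc _ hz a b] at e1
    omega
  · intro l
    obtain ⟨z, hz, -, hz2⟩ := hgen (fun _ => 2) (by
      intro b
      rw [← Finset.mul_sum, ← Finset.mul_sum, H1 b])
    obtain ⟨h2, h3⟩ := hz2 l le_rfl
    have hinf : ∀ x : List (M.Ψ × Fin (n + 1)), x ++ x <:+: z →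
        ∀ a ∈ inpw M x, ∀ b ∈ inpw M x, a = b := by
      rintro x ⟨p, q, hpq⟩
      apply hi _ hz
      refine ⟨inpw M p, inpw M q, ?_⟩
      rw [← hpq]
      simp [inpw_append, List.append_assoc]
    have hne : Nonempty A := Fintype.card_pos_iff.mp (by omega)
    obtain ⟨d⟩ := hne
    have hhead : ∀ x : List A, (∀ a ∈ x, ∀ b ∈ x, a = b) → ∀ a ∈ x, a = x.headD d := by
      intro x hx a ha
      rcases x with _ | ⟨b, x⟩
      · simp at ha
      · exact hx a ha b (by simp)
    refine ⟨(inpw M (u l)).headD d, (inpw M (v l)).headD d, ?_⟩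
    intro a ha
    by_cases hau : a ∈ inpw M (u l)
    · exact Or.inl (hhead _ (hinf _ h2) a hau)
    · right
      apply hhead _ (hinf _ h3) a
      by_contra hav
      apply ha
      rw [List.count_eq_zero_of_not_mem hau, List.count_eq_zero_of_not_mem hav]

end Pool.Agent.Q312.SelfReg
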