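import Pool.Agent.Q312.SelfReg.Defs

/-!
The language of the words `a_0^m b_0^m a_1^m b_1^m ... a_{t}^m b_{t}^m` is in `FSPDA t` for `1 ≤ t`.
-/

namespace Pool.Agent.Q312.SelfReg

/-- the word -/
def Wd (N m : ℕ) : List (Fin N × Bool) :=
  (List.finRange N).flatMap fun j => List.replicate m (j, false) ++ List.replicate m (j, true)

/-- the language -/
def LL (N : ℕ) : Set (List (Fin N × Bool)) := {w | ∃ m, w = Wd N m}

/-- labels -/
inductive Lt (N : ℕ)
  | st (j : Fin N)
  | puB (j : Fin N)
  | puA (j : Fin N)
  | swB (j : Fin N)
  | swA (j : Fin N)
  | po (j : Fin N)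
  | en (j : Fin N)

instance (N : ℕ) : Finite (Lt N) :=
  Finite.of_injective (fun s : Lt N => (match s with
    | .st j => (0, j) | .puB j => (1, j) | .puA j => (2, j) | .swB j => (3, j)
    | .swA j => (4, j) | .po j => (5, j) | .en j => (6, j) : Fin 7 × Fin N)) (by
    intro s t h
    cases s <;> cases t <;> simp at h <;> first | rfl | (subst h; rfl))

/-- start labels -/
def Lt.IsSt {N : ℕ} : Lt N → Prop
  | .st _ => True
  | _ => False

/-- the automaton -/
@[reducible] def mach (N : ℕ) : SPDA (Fin N × Bool) where
  Q := Fin (N + 1) × Fin 3
  Γ := Bool
  Ψ := Lt N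
  finQ := inferInstance
  finΓ := inferInstance
  finΨ := inferInstance
  top := fun x => match x with
    | .st _ => false | .puB _ => false | .puA _ => true | .swB _ => false | .swA _ => true
    | .po _ => true | .en _ => false
  src := fun x => match x with
    | .st j => (j.castSucc, 0) | .puB j => (j.castSucc, 1) | .puA j => (j.castSucc, 1)
    | .swB j => (j.castSucc, 1) | .swA j => (j.castSucc, 1)
    | .po j => (j.castSucc, 2) | .en j => (j.castSucc, 2)
  inp := fun x => match x with
    | .puB j => [(j, false)] | .puA j => [(j, false)] | .po j => [(j, true)] | _ => []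
  push := fun x => match x with
    | .st _ => [false] | .puB _ => [true, false] | .puA _ => [true, true] | .swB _ => [false]
    | .swA _ => [true] | .po _ => [] | .en j => if j.succ = Fin.last N then [] else [false]
  tgt := fun x => match x with
    | .st j => (j.castSucc, 1) | .puB j => (j.castSucc, 1) | .puA j => (j.castSucc, 1)
    | .swB j => (j.castSucc, 2) | .swA j => (j.castSucc, 2)
    | .po j => (j.castSucc, 2) | .en j => (j.succ, 0)
  q0 := (0, 0)
  qt := (1, 0)
  Z0 := false
  F := {(Fin.last N, 0)}
  R := fun x y => x.IsSt ∧ y.IsSt

/-- stack between the blocks -/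
def stk {N : ℕ} (j : Fin (N + 1)) : List Bool := if j = Fin.last N then [] else [false]

/-- a block of the computation with the data `(j, m)` -/
def Seg {N : ℕ} (b : List (Lt N)) (p : Fin N × ℕ) : Prop :=
  ∃ tl, b = .st p.1 :: tl ∧ tl.length = 2 * p.2 + 2 ∧ ∀ x ∈ tl, ¬ x.IsSt

/-- the word with the data `l` -/
def flat {N : ℕ} (l : List (Fin N × ℕ)) : List (Fin N × Bool) :=
  l.flatMap fun p => List.replicate p.2 (p.1, false) ++ List.replicate p.2 (p.1, true)

/-- the rest of the computation -/
def Tail {N : ℕ} (j : ℕ) (v : List (Fin N × Bool)) (μ : List (Lt N)) : Prop :=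
  ∃ (l : List (Fin N × ℕ)) (bs : List (List (Lt N))), l.map Prod.fst = (List.finRange N).drop j ∧
    v = flat l ∧ μ = bs.flatten ∧ List.Forall₂ Seg bs l

lemma run_struct (N : ℕ) (c c' : List (mach N).Γ × (mach N).Q × List (Fin N × Bool))
    (μ : List (mach N).Ψ) (h : (mach N).Run c μ c') (hc' : c' = ([], (Fin.last N, 0), [])) :
    (∀ j v, c = (stk j, (j, 0), v) → Tail j.val v μ) ∧
    (∀ (j : Fin N) i v, c = (List.replicate i true ++ [false], (j.castSucc, 1), v) →
      ∃ m' v' tl μ', v = List.replicate m' (j, false) ++ List.replicate (m' + i) (j, true) ++ v' ∧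
        μ = tl ++ μ' ∧ tl.length = 2 * m' + i + 2 ∧ (∀ x ∈ tl, ¬ Lt.IsSt x) ∧
        Tail (j.val + 1) v' μ') ∧
    (∀ (j : Fin N) i v, c = (List.replicate i true ++ [false], (j.castSucc, 2), v) →
      ∃ v' tl μ', v = List.replicate i (j, true) ++ v' ∧
        μ = tl ++ μ' ∧ tl.length = i + 1 ∧ (∀ x ∈ tl, ¬ Lt.IsSt x) ∧
        Tail (j.val + 1) v' μ') := by
  induction h with
  | nil c =>
    subst hc'
    refine ⟨?_, ?_, ?_⟩
    · intro j v h
      simp only [Prod.mk.injEq] at h
      obtain ⟨-, ⟨h1, -⟩, h2⟩ := h
      refine ⟨[], [], ?_, h2.symm, rfl, List.Forall₂.nil⟩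
      rw [← h1]
      simp
    · intro j i v h
      simp at h
    · intro j i v h
      simp at h
  | cons r β v μ c _ ih =>
    obtain ⟨ih1, ih2, ih3⟩ := ih hc'
    refine ⟨?_, ?_, ?_⟩
    · intro j w h
      simp only [Prod.mk.injEq] at h
      obtain ⟨h1, h2, h3⟩ := h
      rcases r with r | r | r | r | r | r | r
      · simp only [Prod.mk.injEq] at h2
        obtain ⟨h2, -⟩ := h2
        have hj : j ≠ Fin.last N := by rw [← h2]; exact (Fin.castSucc_lt_last r).ne
        simp only [stk, if_neg hj, List.cons.injEq, true_and] at h1
        subst h1
        obtain ⟨m', v', tl, μ', e1, e2, e3, e4, l, bs, e5, e6, e7, e8⟩ := ih2 r 0 v rfl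
        refine ⟨(r, m') :: l, (.st r :: tl) :: bs, ?_, ?_, ?_, ?_⟩
        · rw [← h2, List.map_cons, e5]
          have : r.val < (List.finRange N).length := by simp
          rw [Fin.val_castSucc, List.drop_eq_getElem_cons this]
          simp
        · rw [← h3]
          simp only [List.nil_append]
          rw [e1, e6]
          simp [flat]
        · rw [e2, e7]
          simp
        · refine List.Forall₂.cons ⟨tl, rfl, by simpa using e3, e4⟩ e8
      all_goals simp at h2
    · intro j i w h
      simp only [Prod.mk.injEq] at h
      obtain ⟨h1, h2, h3⟩ := h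
      rcases r with r | r | r | r | r | r | r
      · simp at h2
      · -- puB
        simp only [Prod.mk.injEq, Fin.castSucc_inj, and_true] at h2
        subst h2
        rcases i with _ | i
        · simp only [List.replicate_zero, List.nil_append, List.cons.injEq, true_and] at h1
          subst h1
          obtain ⟨m', v', tl, μ', e1, e2, e3, e4, e5⟩ := ih2 r 1 v rfl
          refine ⟨m' + 1, v', .puB r :: tl, μ', ?_, by rw [e2]; rfl, ?_, ?_, e5⟩
          · rw [← h3]
            simp only
            rw [e1]
            simp [List.replicate_succ]
          · simp only [List.length_cons, e3]; ring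
          · intro x hx
            rcases List.mem_cons.mp hx with rfl | hx
            · exact fun h => h
            · exact e4 x hx
        · simp [List.replicate_succ] at h1
      · -- puA
        simp only [Prod.mk.injEq, Fin.castSucc_inj, and_true] at h2
        subst h2
        rcases i with _ | i
        · simp at h1
        · simp only [List.replicate_succ, List.cons_append, List.cons.injEq, true_and] at h1
          subst h1
          obtain ⟨m', v', tl, μ', e1, e2, e3, e4, e5⟩ := ih2 r (i + 2) v rfl
          refine ⟨m' + 1, v', .puA r :: tl, μ', ?_, by rw [e2]; rfl, ?_, ?_, e5⟩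
          · rw [← h3]
            simp only
            rw [e1]
            simp [List.replicate_succ, Nat.add_assoc, Nat.add_comm 1 (i + 1)]
          · simp only [List.length_cons, e3]; ring
          · intro x hx
            rcases List.mem_cons.mp hx with rfl | hx
            · exact fun h => h
            · exact e4 x hx
      · -- swB
        simp only [Prod.mk.injEq, Fin.castSucc_inj, and_true] at h2
        subst h2
        rcases i with _ | i
        · simp only [List.replicate_zero, List.nil_append, List.cons.injEq, true_and] at h1
          subst h1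
          obtain ⟨v', tl, μ', e1, e2, e3, e4, e5⟩ := ih3 r 0 v rfl
          refine ⟨0, v', .swB r :: tl, μ', ?_, by rw [e2]; rfl, ?_, ?_, e5⟩
          · rw [← h3]
            simp only [List.nil_append]
            rw [e1]
            simp
          · simp only [List.length_cons, e3]
          · intro x hx
            rcases List.mem_cons.mp hx with rfl | hx
            · exact fun h => h
            · exact e4 x hx
        · simp [List.replicate_succ] at h1
      · -- swA
        simp only [Prod.mk.injEq, Fin.castSucc_inj, and_true] at h2
        subst h2
        rcases i with _ | i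
        · simp at h1
        · simp only [List.replicate_succ, List.cons_append, List.cons.injEq, true_and] at h1
          subst h1
          obtain ⟨v', tl, μ', e1, e2, e3, e4, e5⟩ := ih3 r (i + 1) v rfl
          refine ⟨0, v', .swA r :: tl, μ', ?_, by rw [e2]; rfl, ?_, ?_, e5⟩
          · rw [← h3]
            simp only [List.nil_append]
            rw [e1]
            simp
          · simp only [List.length_cons, e3]; ring
          · intro x hx
            rcases List.mem_cons.mp hx with rfl | hx
            · exact fun h => h
            · exact e4 x hx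
      · simp at h2
      · simp at h2
    · intro j i w h
      simp only [Prod.mk.injEq] at h
      obtain ⟨h1, h2, h3⟩ := h
      rcases r with r | r | r | r | r | r | r
      · simp at h2
      · simp at h2
      · simp at h2
      · simp at h2
      · simp at h2
      · -- po
        simp only [Prod.mk.injEq, Fin.castSucc_inj, and_true] at h2
        subst h2
        rcases i with _ | i
        · simp at h1
        · simp only [List.replicate_succ, List.cons_append, List.cons.injEq, true_and] at h1
          subst h1
          obtain ⟨v', tl, μ', e1, e2, e3, e4, e5⟩ := ih3 r i v rfl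
          refine ⟨v', .po r :: tl, μ', ?_, by rw [e2]; rfl, ?_, ?_, e5⟩
          · rw [← h3]
            simp only
            rw [e1]
            simp [List.replicate_succ]
          · simp only [List.length_cons, e3]
          · intro x hx
            rcases List.mem_cons.mp hx with rfl | hx
            · exact fun h => h
            · exact e4 x hx
      · -- en
        simp only [Prod.mk.injEq, Fin.castSucc_inj, and_true] at h2
        subst h2
        rcases i with _ | i
        · simp only [List.replicate_zero, List.nil_append, List.cons.injEq, true_and] at h1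
          subst h1
          have e1 := ih1 r.succ v (by simp [stk])
          refine ⟨v, [.en r], μ, ?_, rfl, rfl, ?_, e1⟩
          · rw [← h3]
            simp
          · intro x hx
            rw [List.mem_singleton.mp hx]
            exact fun h => h
        · simp [List.replicate_succ] at h1

/-! ### Uniqueness of the blocks -/

lemma blocks_unique {X : Type} (P : X → Prop) (xs ys : List (List X))
    (hx : ∀ b ∈ xs, ∃ p tl, b = p :: tl ∧ P p ∧ ∀ x ∈ tl, ¬ P x)
    (hy : ∀ b ∈ ys, ∃ p tl, b = p :: tl ∧ P p) (hlen : xs.length = ys.length)
    (h : xs.flatten = ys.flatten) : xs = ys := by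
  classical
  have hcx : ∀ xs : List (List X), (∀ b ∈ xs, ∃ p tl, b = p :: tl ∧ P p ∧ ∀ x ∈ tl, ¬ P x) →
      xs.flatten.countP (fun x => decide (P x)) = xs.length := by
    intro xs
    induction xs with
    | nil => intro _; rfl
    | cons b xs ih =>
      intro h
      obtain ⟨p, tl, rfl, hp, htl⟩ := h b (by simp)
      rw [List.flatten_cons, List.countP_append, ih (fun b hb => h b (by simp [hb])),
        List.countP_cons]
      have : tl.countP (fun x => decide (P x)) = 0 := by
        rw [List.countP_eq_zero]
        intro x hx
        simpa using htl x hx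
      rw [this]
      simp [hp]
      omega
  have hcy : ∀ ys : List (List X), (∀ b ∈ ys, ∃ p tl, b = p :: tl ∧ P p) →
      ys.length ≤ ys.flatten.countP (fun x => decide (P x)) := by
    intro ys
    induction ys with
    | nil => intro _; exact Nat.zero_le _
    | cons b ys ih =>
      intro h
      obtain ⟨p, tl, rfl, hp⟩ := h b (by simp)
      rw [List.flatten_cons, List.countP_append, List.countP_cons]
      have := ih (fun b hb => h b (by simp [hb]))
      simp only [hp, decide_true, if_true, List.length_cons]
      omega
  induction xs generalizing ys with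
  | nil =>
    rcases ys with _ | ⟨b, ys⟩
    · rfl
    · simp at hlen
  | cons b xs ih =>
    rcases ys with _ | ⟨b', ys⟩
    · simp at hlen
    obtain ⟨p, tl, rfl, hp, htl⟩ := hx b (by simp)
    obtain ⟨p', tl', rfl, hp'⟩ := hy b' (by simp)
    simp only [List.flatten_cons, List.cons_append, List.cons.injEq] at h
    obtain ⟨rfl, h⟩ := h
    simp only [List.length_cons, Nat.add_right_cancel_iff] at hlen
    have hx' : ∀ b ∈ xs, ∃ p tl, b = p :: tl ∧ P p ∧ ∀ x ∈ tl, ¬ P x :=
      fun b hb => hx b (by simp [hb])
    have hy' : ∀ b ∈ ys, ∃ p tl, b = p :: tl ∧ P p := fun b hb => hy b (by simp [hb])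
    have h1 := hcx xs hx'
    have h2 := hcy ys hy'
    rcases List.append_eq_append_iff.mp h with ⟨z, hz1, hz2⟩ | ⟨z, hz1, hz2⟩
    · -- `tl' = tl ++ z`
      rcases z with _ | ⟨x, z⟩
      · simp only [List.append_nil] at hz1
        simp only [List.nil_append] at hz2
        rw [ih ys hx' hy' hlen hz2, hz1]
      · exfalso
        have hxP : P x := by
          rcases xs with _ | ⟨b, xs⟩
          · simp at hz2
          · obtain ⟨q, tq, rfl, hq, -⟩ := hx' b (by simp)
            simp only [List.flatten_cons, List.cons_append, List.cons.injEq] at hz2
            rw [← hz2.1]; exact hq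
        rw [hz2, List.cons_append, List.countP_cons, List.countP_append] at h1
        simp only [hxP, decide_true, if_true] at h1
        omega
    · -- `tl = tl' ++ z`
      rcases z with _ | ⟨x, z⟩
      · simp only [List.append_nil] at hz1
        simp only [List.nil_append] at hz2
        rw [ih ys hx' hy' hlen hz2.symm, hz1]
      · exfalso
        have hxP : P x := by
          rcases ys with _ | ⟨b, ys⟩
          · simp at hz2
          · obtain ⟨q, tq, rfl, hq⟩ := hy' b (by simp)
            simp only [List.flatten_cons, List.cons_append, List.cons.injEq] at hz2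
            rw [← hz2.1]; exact hq
        exact htl x (by rw [hz1]; simp) hxP

/-! ### The computations for the words of the language -/

/-- pushing phase -/
def pus {N : ℕ} (m : ℕ) (j : Fin N) : List (Lt N) :=
  match m with
  | 0 => []
  | m + 1 => .puB j :: List.replicate m (.puA j)

/-- the block -/
def segX {N : ℕ} (m : ℕ) (j : Fin N) : List (Lt N) :=
  .st j :: (pus m j ++ ((if m = 0 then .swB j else .swA j) :: (List.replicate m (.po j) ++ [.en j])))

lemma length_segX {N : ℕ} (m : ℕ) (j : Fin N) : (segX m j).length = 2 * m + 3 := by
  rcases m with _ | m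
  · rfl
  · simp [segX, pus]; ring

lemma run_segX (N m : ℕ) (j : Fin N) (v : List (Fin N × Bool)) (μ : List (Lt N))
    (c : List (mach N).Γ × (mach N).Q × List (Fin N × Bool))
    (h : (mach N).Run (stk j.succ, (j.succ, 0), v) μ c) :
    (mach N).Run ([false], (j.castSucc, 0),
      List.replicate m (j, false) ++ List.replicate m (j, true) ++ v) (segX m j ++ μ) c := by
  have h1 : ∀ i, (mach N).Run (List.replicate i true ++ [false], (j.castSucc, 2),
      List.replicate i (j, true) ++ v) (List.replicate i (.po j) ++ [.en j] ++ μ) c := by
    intro i
    induction i with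
    | zero =>
      have := SPDA.Run.cons (M := mach N) (.en j) [] v μ c (by simpa [stk] using h)
      simpa using this
    | succ i ih =>
      exact SPDA.Run.cons (M := mach N) (.po j) (List.replicate i true ++ [false])
        (List.replicate i (j, true) ++ v) _ c ih
  rcases m with _ | m
  · have h2 := h1 0
    have h3 := SPDA.Run.cons (M := mach N) (.swB j) [] v _ c h2
    have h4 := SPDA.Run.cons (M := mach N) (.st j) [] v _ c h3
    simpa [segX, pus] using h4
  · have h2 := SPDA.Run.cons (M := mach N) (.swA j) (List.replicate m true ++ [false])
      (List.replicate (m + 1) (j, true) ++ v) _ c (h1 (m + 1))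
    have h3 : ∀ i k, i + k = m → (mach N).Run (List.replicate (k + 1) true ++ [false],
        (j.castSucc, 1), List.replicate i (j, false) ++ (List.replicate (m + 1) (j, true) ++ v))
        (List.replicate i (.puA j) ++ (.swA j :: (List.replicate (m + 1) (.po j) ++ [.en j] ++ μ)))
        c := by
      intro i
      induction i with
      | zero =>
        intro k hk
        have : k = m := by omega
        subst this
        exact h2
      | succ i ih =>
        intro k hk
        have h4 := ih (k + 1) (by omega)
        exact SPDA.Run.cons (M := mach N) (.puA j) (List.replicate k true ++ [false]) _ _ c h4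
    have h4 := SPDA.Run.cons (M := mach N) (.puB j) [] _ _ c (h3 m 0 (by omega))
    have h5 := SPDA.Run.cons (M := mach N) (.st j) [] _ _ c h4
    simpa [segX, pus, List.replicate_succ, List.append_assoc] using h5

lemma run_all (N m : ℕ) (i : ℕ) (j : Fin (N + 1)) (hi : j.val + i = N) :
    (mach N).Run (stk j, (j, 0), ((List.finRange N).drop j.val).flatMap fun j =>
      List.replicate m (j, false) ++ List.replicate m (j, true))
      (((List.finRange N).drop j.val).map (segX m)).flatten ([], (Fin.last N, 0), []) := by
  induction i generalizing j with
  | zero =>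
    have hj : j = Fin.last N := Fin.ext (by simpa using hi)
    subst hj
    simp only [stk, if_true, Fin.val_last]
    rw [List.drop_of_length_le (by simp)]
    exact .nil _
  | succ i ih =>
    have hjN : j.val < N := by omega
    have h1 := ih (Fin.succ ⟨j.val, hjN⟩) (by simp; omega)
    have h2 := run_segX N m ⟨j.val, hjN⟩ _ _ _ h1
    have h3 : (⟨j.val, hjN⟩ : Fin N).castSucc = j := Fin.ext rfl
    have h4 : stk j = [false] := by
      simp only [stk]
      rw [if_neg (by intro h; rw [h] at hjN; simp at hjN)]
    have h5 : (List.finRange N).drop j.val = ⟨j.val, hjN⟩ :: (List.finRange N).drop (j.val + 1) := by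
      have : j.val < (List.finRange N).length := by simpa using hjN
      rw [List.drop_eq_getElem_cons this]
      simp
    rw [h4, h5]
    rw [h3] at h2
    simpa using h2

theorem language_mach (t : ℕ) (ht : 1 ≤ t) : (mach (t + 1)).language t = LL (t + 1) := by
  ext w
  constructor
  · rintro ⟨f, hf, μ, hrun, k, b0, bs, hk, hlen, hμ, hbk, hturn, hchain⟩
    have hf' : f = (Fin.last (t + 1), 0) := hf
    subst hf'
    obtain ⟨h1, -, -⟩ := run_struct (t + 1) _ _ μ hrun rfl
    obtain ⟨l, cs, h2, h3, h4, h5⟩ := h1 0 w (by
      have : (0 : Fin (t + 1 + 1)) ≠ Fin.last (t + 1) := by simp [Fin.ext_iff]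
      simp [stk, this])
    simp only [Fin.coe_ofNat_eq_mod, Nat.zero_mod, List.drop_zero] at h2
    have hcs : cs = b0 :: bs := by
      apply blocks_unique Lt.IsSt
      · intro b hb
        obtain ⟨i, hi, rfl⟩ := List.mem_iff_getElem.mp hb
        have hi' : i < l.length := by rw [← h5.length_eq]; exact hi
        obtain ⟨tl, h6, -, h7⟩ := (List.forall₂_iff_get.mp h5).2 i hi hi'
        exact ⟨_, tl, h6, trivial, h7⟩
      · -- all blocks begin with start labels
        have hb0 : b0.length = k := hbk b0 (by simp)
        have key : ∀ (bs : List (List (Lt (t + 1)))) (b0 : List (Lt (t + 1))),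
            (b0 :: bs).IsChain (mach (t + 1)).HeadRel → ∀ b ∈ bs, ∃ p tl, b = p :: tl ∧
              Lt.IsSt p := by
          intro bs
          induction bs with
          | nil => intro _ _ b hb; simp at hb
          | cons b1 bs ih =>
            intro b0 h b hb
            rw [List.isChain_cons_cons] at h
            rcases List.mem_cons.mp hb with rfl | hb
            · obtain ⟨x, y, h6, h7, h8⟩ := h.1
              rcases b with _ | ⟨z, b⟩
              · simp at h7
              · simp only [List.head?_cons, Option.some.injEq] at h7
                subst h7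
                exact ⟨_, b, rfl, h8.2⟩
            · exact ih b1 h.2 b hb
        intro b hb
        rcases List.mem_cons.mp hb with rfl | hb
        · -- the first block
          rcases bs with _ | ⟨b1, bs⟩
          · simp at hlen; omega
          · rw [List.isChain_cons_cons] at hchain
            obtain ⟨x, y, h6, h7, h8⟩ := hchain.1
            rcases b with _ | ⟨z, b⟩
            · simp at h6
            · simp only [List.head?_cons, Option.some.injEq] at h6
              subst h6
              exact ⟨_, b, rfl, h8.1⟩
        · exact key bs b0 hchain b hb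
      · have h6 := congrArg List.length h2
        simp only [List.length_map, List.length_finRange] at h6
        rw [h5.length_eq, h6, List.length_cons, hlen]
      · rw [← h4, ← hμ]
    -- all lengths are equal
    have hm : ∀ p ∈ l, 2 * p.2 + 3 = k := by
      intro p hp
      obtain ⟨i, hi, rfl⟩ := List.mem_iff_getElem.mp hp
      have hi' : i < cs.length := by rw [h5.length_eq]; exact hi
      have h6 := (List.forall₂_iff_get.mp h5).2 i hi' hi
      obtain ⟨tl, h7, h8, -⟩ := h6
      have h9 : (cs[i]).length = k := hbk _ (by rw [← hcs]; exact List.getElem_mem hi')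
      simp only [List.get_eq_getElem] at h7 h8
      rw [h7, List.length_cons] at h9
      omega
    obtain ⟨m, hm'⟩ : ∃ m, ∀ p ∈ l, p.2 = m := by
      refine ⟨(k - 3) / 2, fun p hp => ?_⟩
      have := hm p hp
      omega
    refine ⟨m, ?_⟩
    have hl : l = (List.finRange (t + 1)).map fun j => (j, m) := by
      rw [← h2, List.map_map]
      conv_lhs => rw [← List.map_id l]
      apply List.map_congr_left
      intro p hp
      simp only [id, Function.comp]
      rw [← hm' p hp]
    rw [h3, hl, Wd, flat, List.flatMap_map]
  · rintro ⟨m, rfl⟩
    refine ⟨(Fin.last (t + 1), 0), rfl, ((List.finRange (t + 1)).map (segX m)).flatten, ?_, ?_⟩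
    · have h1 := run_all (t + 1) m (t + 1) 0 (by simp)
      have : (0 : Fin (t + 1 + 1)) ≠ Fin.last (t + 1) := by simp [Fin.ext_iff]
      simpa [stk, this, Wd] using h1
    · refine ⟨2 * m + 3, segX m 0, ((List.finRange (t + 1)).tail.map (segX m)), by omega,
        by simp, ?_, ?_, ?_, ?_⟩
      · rw [List.finRange_succ]
        simp
      · intro b hb
        rcases List.mem_cons.mp hb with rfl | hb
        · exact length_segX m 0
        · obtain ⟨j, -, rfl⟩ := List.mem_map.mp hb
          exact length_segX m j
      · refine ⟨.st 0 :: (pus m 0 ++ ((if m = 0 then .swB 0 else .swA 0) ::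
          List.replicate m (.po 0))), .en 0, ?_, ?_, ?_⟩
        · simp [segX]
        · simp
        · intro r hr
          rcases m with _ | m
          · simp only [pus, if_true, List.replicate_zero, List.nil_append, List.mem_cons,
              List.not_mem_nil, or_false] at hr
            rcases hr with rfl | rfl <;> simp
          · simp only [pus, Nat.add_eq_zero_iff, one_ne_zero, and_false, if_false, List.mem_cons,
              List.cons_append, List.mem_append, List.mem_replicate] at hr
            rcases hr with rfl | rfl | ⟨-, rfl⟩ | rfl | ⟨-, rfl⟩ <;> simp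
      · have key : ∀ l : List (Fin (t + 1)), (l.map (segX m)).IsChain (mach (t + 1)).HeadRel := by
          intro l
          induction l with
          | nil => simp
          | cons j l ih =>
            rcases l with _ | ⟨j', l⟩
            · simp
            · simp only [List.map_cons] at ih ⊢
              rw [List.isChain_cons_cons]
              exact ⟨⟨.st j, .st j', rfl, rfl, trivial, trivial⟩, ih⟩
        have h1 := key (0 :: (List.finRange (t + 1)).tail)
        simpa using h1

theorem upper (t : ℕ) (ht : 1 ≤ t) : FSPDA t (LL (t + 1)) := ⟨_, language_mach t ht⟩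

end Pool.Agent.Q312.SelfReg
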